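import Mathlib

set_option autoImplicit false

/-!
Hereditarily locally connected spaces: basic facts and the gluing lemma.
-/

namespace Pool.Agent.U954.HLC

open Set Topology TopologicalSpace

section Top

variable {X : Type*} [TopologicalSpace X]

/-- A preconnected set meeting an open set but not inside it meets its boundary. -/
theorem exists_bd {V O : Set X} (hV : IsPreconnected V) (hO : IsOpen O)
    (h1 : (V ∩ O).Nonempty) (h2 : ¬ V ⊆ O) : ∃ z ∈ V, z ∈ closure O ∧ z ∉ O := by
  by_contra h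
  push Not at h
  exact h2 (hV.subset_of_closure_inter_subset hO h1 (fun z hz => h z hz.2 hz.1))

/-- The union of a preconnected set and preconnected sets meeting it. -/
theorem preconn_union_of_meet {B : Set X} (hB : IsPreconnected B) {P : Set X}
    (h : ∀ p ∈ P, ∃ K, IsPreconnected K ∧ p ∈ K ∧ K ⊆ B ∪ P ∧ (K ∩ B).Nonempty) :
    IsPreconnected (B ∪ P) := by
  rcases (B ∪ P).eq_empty_or_nonempty with he | hne
  · rw [he]; exact isPreconnected_empty
  have hBn : B.Nonempty := by
    obtain ⟨p, hp⟩ := hne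
    rcases hp with hp | hp
    · exact ⟨p, hp⟩
    · obtain ⟨K, _, _, _, z, _, hz⟩ := h p hp
      exact ⟨z, hz⟩
  obtain ⟨b, hb⟩ := hBn
  refine isPreconnected_of_forall b ?_
  intro p hp
  rcases hp with hp | hp
  · exact ⟨B, subset_union_left, hb, hp, hB⟩
  · obtain ⟨K, hK, hpK, hKs, hKB⟩ := h p hp
    refine ⟨B ∪ K, union_subset subset_union_left hKs, Or.inl hb, Or.inr hpK, ?_⟩
    refine IsPreconnected.union' ?_ hB hK
    rw [inter_comm]; exact hKB

/-- Hereditary local connectedness, for preconnected subsets. -/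
def HLC (X : Type*) [TopologicalSpace X] : Prop :=
  ∀ S : Set X, IsPreconnected S → LocallyConnectedSpace S

theorem HLC.use (h : HLC X) {S : Set X} (hS : IsPreconnected S) {p : X} (hp : p ∈ S)
    {U : Set X} (hU : IsOpen U) (hpU : p ∈ U) :
    ∃ V : Set X, IsPreconnected V ∧ V ⊆ S ∧ V ⊆ U ∧ ∃ O : Set X, IsOpen O ∧ p ∈ O ∧
      O ∩ S ⊆ V := by
  have := h S hS
  have h1 := (locallyConnectedSpace_iff_connected_subsets (α := S)).1 inferInstance
    ⟨p, hp⟩ (Subtype.val ⁻¹' U) ((hU.preimage continuous_subtype_val).mem_nhds hpU)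
  obtain ⟨V, hV, hVc, hVU⟩ := h1
  refine ⟨Subtype.val '' V, hVc.image _ continuous_subtype_val.continuousOn, ?_, ?_, ?_⟩
  · rintro _ ⟨v, _, rfl⟩; exact v.2
  · rintro _ ⟨v, hv, rfl⟩; exact hVU hv
  · rw [mem_nhds_iff] at hV
    obtain ⟨W, hWV, hWo, hpW⟩ := hV
    obtain ⟨O, hO, rfl⟩ := isOpen_induced_iff.1 hWo
    refine ⟨O, hO, hpW, ?_⟩
    rintro z ⟨hzO, hzS⟩
    exact ⟨⟨z, hzS⟩, hWV hzO, rfl⟩

/-- A space in which every point has small preconnected neighbourhoods. -/
theorem lc_of_use {S : Set X}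
    (h : ∀ p ∈ S, ∀ U : Set X, IsOpen U → p ∈ U → ∃ V : Set X, IsPreconnected V ∧ V ⊆ S ∧
      V ⊆ U ∧ ∃ O : Set X, IsOpen O ∧ p ∈ O ∧ O ∩ S ⊆ V) : LocallyConnectedSpace S := by
  rw [locallyConnectedSpace_iff_connected_subsets]
  rintro ⟨p, hp⟩ U hU
  rw [mem_nhds_iff] at hU
  obtain ⟨W, hWU, hWo, hpW⟩ := hU
  obtain ⟨G, hG, rfl⟩ := isOpen_induced_iff.1 hWo
  obtain ⟨V, hV, hVS, hVG, O, hO, hpO, hOS⟩ := h p hp G hG hpW
  refine ⟨Subtype.val ⁻¹' V, ?_, ?_, ?_⟩
  · exact Filter.mem_of_superset ((hO.preimage continuous_subtype_val).mem_nhds hpO)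
      (fun z hz => hOS ⟨hz, z.2⟩)
  · rw [← IsInducing.subtypeVal.isPreconnected_image, Subtype.image_preimage_coe,
      inter_eq_right.2 hVS]
    exact hV
  · exact fun z hz => hWU (hVG hz)

theorem HLC.subtype (h : HLC X) (S : Set X) : HLC S := by
  intro T hT
  have hT' : IsPreconnected (Subtype.val '' T) := hT.image _ continuous_subtype_val.continuousOn
  refine lc_of_use ?_
  intro p hp U hU hpU
  obtain ⟨G, hG, rfl⟩ := isOpen_induced_iff.1 hU
  obtain ⟨V, hV, hVT, hVG, O, hO, hpO, hOS⟩ :=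
    h.use hT' (mem_image_of_mem _ hp) hG hpU
  refine ⟨Subtype.val ⁻¹' V, ?_, ?_, ?_, Subtype.val ⁻¹' O,
    hO.preimage continuous_subtype_val, hpO, ?_⟩
  · have hVS : V ⊆ S := by
      intro v hv
      obtain ⟨w, _, rfl⟩ := hVT hv
      exact w.2
    rw [← IsInducing.subtypeVal.isPreconnected_image, Subtype.image_preimage_coe,
      inter_eq_right.2 hVS]
    exact hV
  · intro v hv
    obtain ⟨w, hw, hwv⟩ := hVT hv
    rw [← Subtype.ext hwv]; exact hw
  · intro v hv; exact hVG hv
  · rintro v ⟨hvO, hvT⟩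
    exact hOS ⟨hvO, mem_image_of_mem _ hvT⟩

/-- A preconnected HLC space is locally connected. -/
theorem HLC.locallyConnected (h : HLC X) (hX : IsPreconnected (univ : Set X)) :
    LocallyConnectedSpace X := by
  rw [locallyConnectedSpace_iff_connected_subsets]
  intro p U hU
  rw [mem_nhds_iff] at hU
  obtain ⟨G, hGU, hG, hpG⟩ := hU
  obtain ⟨V, hV, _, hVG, O, hO, hpO, hOS⟩ := h.use hX (mem_univ p) hG hpG
  refine ⟨V, Filter.mem_of_superset (hO.mem_nhds hpO) (fun z hz => hOS ⟨hz, mem_univ z⟩), hV,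
    hVG.trans hGU⟩

end Top

section LC

variable {X : Type*} [TopologicalSpace X]

/-- The union of the components of `V` meeting `B`. -/
def meet (V B : Set X) : Set X := {y | y ∈ V ∧ (connectedComponentIn V y ∩ B).Nonempty}

theorem meet_subset (V B : Set X) : meet V B ⊆ V := fun _ h => h.1

theorem comp_subset_meet {V B : Set X} {y : X} (hy : y ∈ meet V B) :
    connectedComponentIn V y ⊆ meet V B := by
  intro z hz
  refine ⟨connectedComponentIn_subset _ _ hz, ?_⟩
  rw [← connectedComponentIn_eq hz]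
  exact hy.2

theorem subset_meet_of_preconn {V B K : Set X} (hK : IsPreconnected K) (hKV : K ⊆ V)
    (h : (K ∩ meet V B).Nonempty) : K ⊆ meet V B := by
  obtain ⟨y, hyK, hy⟩ := h
  exact (hK.subset_connectedComponentIn hyK hKV).trans (comp_subset_meet hy)

theorem isOpen_meet [LocallyConnectedSpace X] {V B : Set X} (hV : IsOpen V) :
    IsOpen (meet V B) := by
  rw [isOpen_iff_mem_nhds]
  intro y hy
  exact Filter.mem_of_superset (hV.connectedComponentIn.mem_nhds (mem_connectedComponentIn hy.1))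
    (comp_subset_meet hy)

theorem closure_meet_inter [LocallyConnectedSpace X] {V B : Set X} (hV : IsOpen V) {p : X}
    (hp : p ∈ V) (hpc : p ∈ closure (meet V B)) : p ∈ meet V B := by
  have hK : IsOpen (connectedComponentIn V p) := hV.connectedComponentIn
  have h1 : (connectedComponentIn V p ∩ meet V B).Nonempty :=
    mem_closure_iff.1 hpc _ hK (mem_connectedComponentIn hp)
  exact subset_meet_of_preconn isPreconnected_connectedComponentIn
    (connectedComponentIn_subset _ _) h1 (mem_connectedComponentIn hp)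

theorem closure_inter_meet [LocallyConnectedSpace X] {V B : Set X} (hV : IsOpen V) {p : X}
    (hp : p ∈ V) (hpB : p ∈ closure B) : p ∈ meet V B := by
  have hK : IsOpen (connectedComponentIn V p) := hV.connectedComponentIn
  refine ⟨hp, ?_⟩
  exact mem_closure_iff.1 hpB _ hK (mem_connectedComponentIn hp)

theorem preconn_union_meet {ι : Type*} {B : Set X} (hB : IsPreconnected B) (V : ι → Set X) :
    IsPreconnected (B ∪ ⋃ i, meet (V i) B) := by
  refine preconn_union_of_meet hB ?_
  intro p hp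
  obtain ⟨i, hi⟩ := mem_iUnion.1 hp
  refine ⟨connectedComponentIn (V i) p, isPreconnected_connectedComponentIn,
    mem_connectedComponentIn hi.1, ?_, hi.2⟩
  exact ((comp_subset_meet hi).trans (subset_iUnion (fun i => meet (V i) B) i)).trans
    subset_union_right

/-- The key lemma on unions of components. -/
theorem KL [LocallyConnectedSpace X] (hX : HLC X) {ι : Type*} {B : Set X}
    (hB : IsPreconnected B) (V : ι → Set X) (hV : ∀ i, IsOpen (V i))
    (hd : ∀ i j, i ≠ j → Disjoint (V i) (V j)) :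
    closure (⋃ i, meet (V i) B) ⊆ closure B ∪ ⋃ i, closure (meet (V i) B) := by
  intro p hp
  by_contra hcon
  have hpB : p ∉ closure B := fun h => hcon (Or.inl h)
  have hpi : ∀ i, p ∉ closure (meet (V i) B) := fun i h =>
    hcon (Or.inr (mem_iUnion.2 ⟨i, h⟩))
  set S : Set X := insert p (B ∪ ⋃ i, meet (V i) B) with hS
  have hSc : IsPreconnected S := by
    refine (preconn_union_meet hB V).subset_closure (subset_insert _ _) ?_
    intro z hz
    rcases hz with rfl | hz
    · exact closure_mono subset_union_right hp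
    · exact subset_closure hz
  obtain ⟨W, hW, hWS, hWU, O, hO, hpO, hOS⟩ :=
    hX.use hSc (mem_insert p _) (isClosed_closure (s := B)).isOpen_compl hpB
  obtain ⟨y, hyO, hy⟩ := mem_closure_iff.1 hp O hO hpO
  obtain ⟨i, hi⟩ := mem_iUnion.1 hy
  have hyW : y ∈ W := hOS ⟨hyO, Or.inr (Or.inr hy)⟩
  have hpW : p ∈ W := hOS ⟨hpO, mem_insert p _⟩
  obtain ⟨z, hzW, hzc, hzn⟩ := exists_bd hW (isOpen_meet (B := B) (hV i)) ⟨y, hyW, hi⟩
    (fun h => hpi i (subset_closure (h hpW)))
  rcases hWS hzW with rfl | hz | hz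
  · exact hpi i hzc
  · exact hWU hzW (subset_closure hz)
  · obtain ⟨j, hj⟩ := mem_iUnion.1 hz
    have hij : i ≠ j := by
      rintro rfl; exact hzn hj
    obtain ⟨w, hwj, hwi⟩ := mem_closure_iff.1 hzc _ (hV j) hj.1
    exact (Set.disjoint_left.1 (hd i j hij)) hwi.1 hwj

/-- The disjointified family. -/
def trim (O : ℕ → Set X) (i : ℕ) : Set X := O i \ ⋃ j ∈ Finset.range i, closure (O j)

theorem isOpen_trim {O : ℕ → Set X} (hO : ∀ i, IsOpen (O i)) (i : ℕ) : IsOpen (trim O i) := by
  refine (hO i).sdiff ?_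
  exact (Finset.range i).finite_toSet.isClosed_biUnion (fun j _ => isClosed_closure)

theorem mem_trim {O : ℕ → Set X} {i : ℕ} {p : X} :
    p ∈ trim O i ↔ p ∈ O i ∧ ∀ j < i, p ∉ closure (O j) := by
  simp [trim]

theorem trim_disjoint {O : ℕ → Set X} (i j : ℕ) (hij : i ≠ j) :
    Disjoint (trim O i) (trim O j) := by
  rw [Set.disjoint_left]
  intro p hi hj
  rw [mem_trim] at hi hj
  rcases lt_or_gt_of_ne hij with h | h
  · exact hj.2 i h (subset_closure hi.1)
  · exact hi.2 j h (subset_closure hj.1)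

/-- The glued set. -/
def glue (O : ℕ → Set X) (B : Set X) : Set X := ⋃ i, meet (trim O i) B

theorem isOpen_glue [LocallyConnectedSpace X] {O : ℕ → Set X} (hO : ∀ i, IsOpen (O i))
    (B : Set X) : IsOpen (glue O B) := isOpen_iUnion fun i => isOpen_meet (isOpen_trim hO i)

theorem glue_subset {O : ℕ → Set X} {B : Set X} : glue O B ⊆ ⋃ i, O i := by
  refine iUnion_mono fun i => ?_
  exact (meet_subset _ _).trans sdiff_subset

theorem preconn_glue {O : ℕ → Set X} {B : Set X} (hB : IsPreconnected B) :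
    IsPreconnected (B ∪ glue O B) := preconn_union_meet hB _

theorem closure_glue [LocallyConnectedSpace X] (hX : HLC X) {O : ℕ → Set X}
    (hO : ∀ i, IsOpen (O i)) {B : Set X} (hB : IsPreconnected B) :
    closure (glue O B) ⊆ closure B ∪ ⋃ i, closure (O i) := by
  refine (KL hX hB (trim O) (isOpen_trim hO) trim_disjoint).trans ?_
  refine union_subset_union_right _ (iUnion_mono fun i => closure_mono ?_)
  exact (meet_subset _ _).trans sdiff_subset

/-- Points of the closure of `B` covered by the family are in the glued set, up to boundaries. -/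
theorem cover_glue [LocallyConnectedSpace X] {O : ℕ → Set X}
    (hO : ∀ i, IsOpen (O i)) {B : Set X} {p : X} (hp : p ∈ closure B) (hpO : p ∈ ⋃ i, O i) :
    p ∈ glue O B ∨ p ∈ ⋃ i, frontier (O i) := by
  classical
  obtain ⟨k, hk⟩ := mem_iUnion.1 hpO
  have hex : ∃ i, p ∈ closure (O i) := ⟨k, subset_closure hk⟩
  by_cases hf : p ∈ frontier (O (Nat.find hex))
  · exact Or.inr (mem_iUnion.2 ⟨_, hf⟩)
  · left
    have h1 : p ∈ O (Nat.find hex) := by
      by_contra h
      apply hf
      rw [(hO _).frontier_eq]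
      exact ⟨Nat.find_spec hex, h⟩
    have h2 : p ∈ trim O (Nat.find hex) := mem_trim.2 ⟨h1, fun j hj => Nat.find_min hex hj⟩
    exact mem_iUnion.2 ⟨_, closure_inter_meet (isOpen_trim hO _) h2 hp⟩

theorem frontier_glue [LocallyConnectedSpace X] (hX : HLC X) {O : ℕ → Set X}
    (hO : ∀ i, IsOpen (O i)) {B : Set X} (hB : IsPreconnected B) {p : X}
    (hp : p ∈ closure (glue O B)) (hpn : p ∉ glue O B) :
    p ∈ closure B ∨ p ∈ ⋃ i, frontier (O i) := by
  rcases KL hX hB (trim O) (isOpen_trim hO) trim_disjoint hp with h | h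
  · exact Or.inl h
  · right
    obtain ⟨i, hi⟩ := mem_iUnion.1 h
    have hi' : p ∈ closure (trim O i) := closure_mono (meet_subset _ _) hi
    have hnt : p ∉ trim O i := fun h' =>
      hpn (mem_iUnion.2 ⟨i, closure_meet_inter (isOpen_trim hO i) h' hi⟩)
    rw [mem_trim] at hnt
    push Not at hnt
    by_cases hpi : p ∈ O i
    · obtain ⟨j, hji, hj⟩ := hnt hpi
      refine mem_iUnion.2 ⟨j, ?_⟩
      rw [(hO j).frontier_eq]
      refine ⟨hj, fun hpj => ?_⟩
      obtain ⟨w, hwj, hwi⟩ := mem_closure_iff.1 hi' _ (hO j) hpj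
      exact (mem_trim.1 hwi).2 j hji (subset_closure hwj)
    · refine mem_iUnion.2 ⟨i, ?_⟩
      rw [(hO i).frontier_eq]
      exact ⟨closure_mono sdiff_subset hi', hpi⟩

/-- The frontier of a component of an open set. -/
theorem frontier_comp [LocallyConnectedSpace X] {G : Set X} (hG : IsOpen G) {x z : X}
    (hz : z ∈ closure (connectedComponentIn G x)) (hzn : z ∉ connectedComponentIn G x) :
    z ∉ G := by
  intro hzG
  have hK : IsOpen (connectedComponentIn G z) := hG.connectedComponentIn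
  obtain ⟨w, hw1, hw2⟩ := mem_closure_iff.1 hz _ hK (mem_connectedComponentIn hzG)
  apply hzn
  rw [connectedComponentIn_eq hw2, ← connectedComponentIn_eq hw1]
  exact mem_connectedComponentIn hzG

end LC

end Pool.Agent.U954.HLC
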