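import Mathlib
import Pool.Agent.U954.HLC.Basic

set_option autoImplicit false

/-!
Separation of points by open sets with countable boundary, and thick sets.
-/

namespace Pool.Agent.U954.HLC

open Set Topology TopologicalSpace

section Top

variable {X : Type*} [TopologicalSpace X]

theorem lindelof_seq [SecondCountableTopology X] {F : Set X} {P : Set X → Prop}
    (h : ∀ a ∈ F, ∃ O : Set X, IsOpen O ∧ a ∈ O ∧ P O) (hP : P ∅) :
    ∃ O : ℕ → Set X, (∀ i, IsOpen (O i)) ∧ (∀ i, P (O i)) ∧ F ⊆ ⋃ i, O i := by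
  classical
  choose! O hO haO hPO using h
  obtain ⟨T, hTF, hTc, hTu⟩ := isOpen_biUnion_countable F O hO
  rcases T.eq_empty_or_nonempty with he | hne
  · refine ⟨fun _ => ∅, fun _ => isOpen_empty, fun _ => hP, ?_⟩
    intro a ha
    have : a ∈ ⋃ i ∈ F, O i := mem_biUnion ha (haO a ha)
    rw [← hTu, he] at this
    simp at this
  · obtain ⟨f, rfl⟩ := hTc.exists_eq_range hne
    refine ⟨fun n => O (f n), fun n => hO _ (hTF (mem_range_self n)),
      fun n => hPO _ (hTF (mem_range_self n)), ?_⟩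
    intro a ha
    have : a ∈ ⋃ i ∈ F, O i := mem_biUnion ha (haO a ha)
    rw [← hTu] at this
    simpa using this

/-- `x` and `y` can be separated by an open set with countable boundary. -/
def CS (x y : X) : Prop :=
  ∃ O : Set X, IsOpen O ∧ x ∈ O ∧ y ∉ closure O ∧ (frontier O).Countable

theorem CS.symm {x y : X} (h : CS x y) : CS y x := by
  obtain ⟨O, hO, hx, hy, hc⟩ := h
  refine ⟨(closure O)ᶜ, isClosed_closure.isOpen_compl, hy, ?_, ?_⟩
  · rw [closure_compl]
    exact fun h => h (interior_maximal subset_closure hO hx)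
  · rw [frontier_compl]
    exact hc.mono frontier_closure_subset

theorem CS.ne {x y : X} (h : CS x y) : x ≠ y := by
  rintro rfl
  obtain ⟨O, _, hx, hy, _⟩ := h
  exact hy (subset_closure hx)

theorem glue2 [LocallyConnectedSpace X] (hX : HLC X) {O : ℕ → Set X}
    (hO : ∀ i, IsOpen (O i)) {W : Set X} (hW : IsOpen W) (hWc : IsPreconnected W) {p : X}
    (hp : p ∈ closure (W ∪ glue O W)) (hpn : p ∉ W ∪ glue O W) :
    (p ∈ frontier W ∧ p ∉ ⋃ i, O i) ∨ p ∈ ⋃ i, frontier (O i) := by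
  by_cases hpW : p ∈ closure W
  · by_cases hpO : p ∈ ⋃ i, O i
    · rcases cover_glue hO hpW hpO with h | h
      · exact absurd (Or.inr h) hpn
      · exact Or.inr h
    · left
      refine ⟨?_, hpO⟩
      rw [hW.frontier_eq]
      exact ⟨hpW, fun h => hpn (Or.inl h)⟩
  · rw [closure_union] at hp
    rcases hp with hp | hp
    · exact absurd hp hpW
    · rcases frontier_glue hX hO hWc hp (fun h => hpn (Or.inr h)) with h | h
      · exact absurd h hpW
      · exact Or.inr h

theorem notMem_closure_union_glue [LocallyConnectedSpace X] (hX : HLC X) {O : ℕ → Set X}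
    (hO : ∀ i, IsOpen (O i)) {W : Set X} (hWc : IsPreconnected W) {p : X}
    (hp : p ∉ closure W) (hpO : ∀ i, p ∉ closure (O i)) : p ∉ closure (W ∪ glue O W) := by
  rw [closure_union]
  rintro (h | h)
  · exact hp h
  · rcases closure_glue hX hO hWc h with h | h
    · exact hp h
    · obtain ⟨i, hi⟩ := mem_iUnion.1 h
      exact hpO i hi

/-- The boundary lemma. -/
theorem SBL [SecondCountableTopology X] [LocallyConnectedSpace X] (hX : HLC X) {x y : X}
    (h : ¬ CS x y) {W : Set X} (hW : IsOpen W) (hWc : IsPreconnected W) (hx : x ∈ W)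
    (hy : y ∉ closure W) : ¬ {a | a ∈ frontier W ∧ ¬ CS a x ∧ ¬ CS a y}.Countable := by
  intro hZ
  apply h
  obtain ⟨O, hO, hPO, hcov⟩ := lindelof_seq (F := {a | a ∈ frontier W ∧ CS a y})
    (P := fun O => y ∉ closure O ∧ (frontier O).Countable)
    (fun a ha => by
      obtain ⟨O, h1, h2, h3, h4⟩ := ha.2
      exact ⟨O, h1, h2, h3, h4⟩) (by simp)
  obtain ⟨O', hO', hPO', hcov'⟩ := lindelof_seq (F := {a | a ∈ frontier W ∧ CS a x})
    (P := fun O => x ∉ closure O ∧ (frontier O).Countable)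
    (fun a ha => by
      obtain ⟨O, h1, h2, h3, h4⟩ := ha.2
      exact ⟨O, h1, h2, h3, h4⟩) (by simp)
  set P : Set X := W ∪ glue O W with hPdef
  have hPo : IsOpen P := hW.union (isOpen_glue hO W)
  have hyP : y ∉ closure P := notMem_closure_union_glue hX hO hWc hy (fun i => (hPO i).1)
  set B : Set X := connectedComponentIn (closure P)ᶜ y with hBdef
  have hBo : IsOpen B := isClosed_closure.isOpen_compl.connectedComponentIn
  have hyB : y ∈ B := mem_connectedComponentIn hyP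
  have hBc : IsPreconnected B := isPreconnected_connectedComponentIn
  have hBP : ∀ z ∈ closure B, z ∉ P := by
    intro z hz hzP
    obtain ⟨w, hwP, hwB⟩ := mem_closure_iff.1 hz P hPo hzP
    exact (connectedComponentIn_subset _ _ hwB) (subset_closure hwP)
  have hxB : x ∉ closure B := fun h' => hBP x h' (Or.inl hx)
  apply CS.symm
  refine ⟨B ∪ glue O' B, hBo.union (isOpen_glue hO' B), Or.inl hyB,
    notMem_closure_union_glue hX hO' hBc hxB (fun i => (hPO' i).1), ?_⟩
  have hcount : ({a | a ∈ frontier W ∧ ¬ CS a x ∧ ¬ CS a y} ∪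
      ((⋃ i, frontier (O i)) ∪ ⋃ i, frontier (O' i))).Countable :=
    hZ.union ((countable_iUnion fun i => (hPO i).2).union (countable_iUnion fun i => (hPO' i).2))
  refine hcount.mono ?_
  intro p hp
  rw [(hBo.union (isOpen_glue hO' B)).frontier_eq] at hp
  rcases glue2 hX hO' hBo hBc hp.1 hp.2 with ⟨h1, h2⟩ | h1
  · rw [hBo.frontier_eq] at h1
    have h3 : p ∈ closure P := by
      by_contra hcon
      exact frontier_comp (isClosed_closure (s := P)).isOpen_compl h1.1 h1.2 hcon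
    have h4 : p ∉ P := hBP p h1.1
    rcases glue2 hX hO hW hWc h3 h4 with ⟨h5, h6⟩ | h5
    · left
      exact ⟨h5, fun hc => h2 (hcov' ⟨h5, hc⟩), fun hc => h6 (hcov ⟨h5, hc⟩)⟩
    · exact Or.inr (Or.inl h5)
  · exact Or.inr (Or.inr h1)

/-- Transitivity of non-separation through points off a countable set. -/
theorem exists_Cstar [SecondCountableTopology X] :
    ∃ C : Set X, C.Countable ∧ ∀ u v w : X, v ∉ C → ¬ CS u v → ¬ CS v w → ¬ CS u w := by
  classical
  have hch : ∀ p ∈ {p : X × X | CS p.1 p.2}, ∃ O : Set X, IsOpen O ∧ p.1 ∈ O ∧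
      p.2 ∉ closure O ∧ (frontier O).Countable := fun p hp => hp
  choose! O hO h1 h2 h3 using hch
  obtain ⟨T, hT, hTc, hTu⟩ := isOpen_biUnion_countable {p : X × X | CS p.1 p.2}
    (fun p => O p ×ˢ (closure (O p))ᶜ)
    (fun p hp => (hO p hp).prod isClosed_closure.isOpen_compl)
  refine ⟨⋃ p ∈ T, frontier (O p), hTc.biUnion (fun p hp => h3 p (hT hp)), ?_⟩
  intro u v w hv huv hvw huw
  have hmem : (u, w) ∈ ⋃ p ∈ {p : X × X | CS p.1 p.2}, (O p ×ˢ (closure (O p))ᶜ) :=
    mem_biUnion (show (u, w) ∈ {p : X × X | CS p.1 p.2} from huw)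
      ⟨h1 (u, w) huw, h2 (u, w) huw⟩
  rw [← hTu] at hmem
  obtain ⟨p, hp, hu, hw⟩ := mem_iUnion₂.1 hmem
  have hvf : v ∉ frontier (O p) := fun h => hv (mem_biUnion hp h)
  by_cases hvO : v ∈ O p
  · exact hvw ⟨O p, hO p (hT hp), hvO, hw, h3 p (hT hp)⟩
  · refine huv ⟨O p, hO p (hT hp), hu, ?_, h3 p (hT hp)⟩
    intro hc
    apply hvf
    rw [(hO p (hT hp)).frontier_eq]
    exact ⟨hc, hvO⟩

theorem small_nbhd [RegularSpace X] [LocallyConnectedSpace X] {x : X} {U : Set X}
    (hU : IsOpen U) (hx : x ∈ U) :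
    ∃ W : Set X, IsOpen W ∧ IsPreconnected W ∧ x ∈ W ∧ closure W ⊆ U := by
  obtain ⟨t, ht, htc, htU⟩ := exists_mem_nhds_isClosed_subset (hU.mem_nhds hx)
  refine ⟨connectedComponentIn (interior t) x, isOpen_interior.connectedComponentIn,
    isPreconnected_connectedComponentIn, mem_connectedComponentIn (mem_interior_iff_mem_nhds.2 ht),
    ?_⟩
  refine (closure_minimal ?_ htc).trans htU
  exact (connectedComponentIn_subset _ _).trans interior_subset

/-- A set that stays connected after removal of any countable set. -/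
def Thick (T : Set X) : Prop :=
  T.Nontrivial ∧ ∀ C : Set X, C.Countable → IsPreconnected (T \ C)

theorem Thick.preconn {T : Set X} (hT : Thick T) : IsPreconnected T := by
  simpa using hT.2 ∅ countable_empty

theorem Thick.uncountable [T1Space X] {T : Set X} (hT : Thick T) {G : Set X} (hG : IsOpen G)
    (hGT : (G ∩ T).Nonempty) : ¬ (G ∩ T).Countable := by
  intro hc
  obtain ⟨z, hzG, hzT⟩ := hGT
  obtain ⟨w, hwT, hwz⟩ := hT.1.exists_ne z
  have h1 := hT.2 ((G ∩ T) \ {z, w}) (hc.mono sdiff_subset)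
  obtain ⟨v, hv, hv1, hv2⟩ := h1 ({z}ᶜ) (G \ {w}) isOpen_compl_singleton
    (hG.sdiff isClosed_singleton)
    (by
      intro a ha
      by_cases haz : a = z
      · right; rw [haz]; exact ⟨hzG, fun h => hwz h.symm⟩
      · exact Or.inl haz)
    ⟨w, ⟨hwT, by simp⟩, hwz⟩ ⟨z, ⟨hzT, by simp⟩, hzG, fun h => hwz h.symm⟩
  apply hv.2
  refine ⟨⟨hv2.1, hv.1⟩, ?_⟩
  rintro (h | h)
  · exact hv1 h
  · exact hv2.2 h

end Top

section Metric

variable {X : Type*} [MetricSpace X]

/-- A set that is not preconnected is cut by two disjoint open sets. -/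
theorem preconn_of_disjoint_open {S : Set X}
    (h : ∀ U V : Set X, IsOpen U → IsOpen V → Disjoint U V → S ⊆ U ∪ V → (S ∩ U).Nonempty →
      (S ∩ V).Nonempty → False) : IsPreconnected S := by
  intro U V hU hV hS hSU hSV
  by_contra hcon
  have hUV : ∀ z ∈ S, z ∈ U → z ∉ V := fun z hz h1 h2 => hcon ⟨z, hz, h1, h2⟩
  have hd1 : Disjoint (closure (S ∩ U)) (S ∩ V) := by
    rw [Set.disjoint_left]
    intro z hz hzV
    obtain ⟨w, hw1, hw2⟩ := mem_closure_iff.1 hz V hV hzV.2
    exact hUV w hw2.1 hw2.2 hw1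
  have hd2 : Disjoint (S ∩ U) (closure (S ∩ V)) := by
    rw [Set.disjoint_left]
    intro z hzU hz
    obtain ⟨w, hw1, hw2⟩ := mem_closure_iff.1 hz U hU hzU.2
    exact hUV w hw2.1 hw1 hw2.2
  have hsep : SeparatedNhds (S ∩ U) (S ∩ V) :=
    separatedNhds_iff_disjoint.2 (CompletelyNormalSpace.completely_normal hd1 hd2)
  obtain ⟨U', V', hU', hV', h1, h2, hd⟩ := hsep
  refine h U' V' hU' hV' hd ?_ ?_ ?_
  · intro z hz
    rcases hS hz with h | h
    · exact Or.inl (h1 ⟨hz, h⟩)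
    · exact Or.inr (h2 ⟨hz, h⟩)
  · obtain ⟨z, hz⟩ := hSU
    exact ⟨z, hz.1, h1 hz⟩
  · obtain ⟨z, hz⟩ := hSV
    exact ⟨z, hz.1, h2 hz⟩

/-- Two points that cannot be separated by a countable boundary lie in a thick set. -/
theorem exists_thick [SecondCountableTopology X] [LocallyConnectedSpace X] (hX : HLC X)
    {x y : X} (hxy : x ≠ y) (h : ¬ CS x y) : ∃ T : Set X, Thick T ∧ x ∈ T ∧ y ∈ T := by
  obtain ⟨C, hC, htr⟩ := exists_Cstar (X := X)
  -- a helper: uncountable sets of third points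
  have hpick : ∀ u v : X, u ≠ v → ¬ CS u v → ∀ G : Set X, IsOpen G → u ∈ G → ∀ D : Set X,
      D.Countable → ∃ a, a ∈ G ∧ a ≠ u ∧ a ≠ v ∧ a ∉ C ∧ a ∉ D ∧ ¬ CS a u ∧ ¬ CS a v := by
    intro u v huv hn G hG huG D hD
    obtain ⟨W, hW, hWc, huW, hWG⟩ := small_nbhd (hG.inter isOpen_compl_singleton)
      (⟨huG, huv⟩ : u ∈ G ∩ {v}ᶜ)
    have hvW : v ∉ closure W := fun h' => (hWG h').2 rfl
    have hunc := SBL hX hn hW hWc huW hvW
    have hne : ({a | a ∈ frontier W ∧ ¬ CS a u ∧ ¬ CS a v} \ (C ∪ D)).Nonempty := by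
      by_contra hcon
      rw [not_nonempty_iff_eq_empty, sdiff_eq_empty] at hcon
      exact hunc ((hC.union hD).mono hcon)
    obtain ⟨a, ⟨ha1, ha2, ha3⟩, ha4⟩ := hne
    rw [hW.frontier_eq] at ha1
    refine ⟨a, (hWG ha1.1).1, ?_, ?_, fun h' => ha4 (Or.inl h'), fun h' => ha4 (Or.inr h'),
      ha2, ha3⟩
    · rintro rfl; exact ha1.2 huW
    · rintro rfl; exact hvW ha1.1
  obtain ⟨q, -, hqx, hqy, hqC, -, hqx', hqy'⟩ := hpick x y hxy h univ isOpen_univ (mem_univ x) ∅
    countable_empty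
  set Q : Set X := {v | v ∉ C ∧ ¬ CS q v} with hQdef
  have hQQ : ∀ u ∈ Q, ∀ v ∈ Q, ¬ CS u v := fun u hu v hv =>
    htr u q v hqC (fun h' => hu.2 h'.symm) hv.2
  -- Q minus countable sets is preconnected
  have hQc : ∀ D : Set X, D.Countable → IsPreconnected (Q \ D) := by
    intro D hD
    refine preconn_of_disjoint_open ?_
    rintro U V hU hV hUV hcov ⟨u, hu, huU⟩ ⟨v, hv, hvV⟩
    set W : Set X := connectedComponentIn U u with hWdef
    have hWo : IsOpen W := hU.connectedComponentIn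
    have hvW : v ∉ closure W := by
      intro h'
      obtain ⟨w, hw1, hw2⟩ := mem_closure_iff.1 h' V hV hvV
      exact Set.disjoint_left.1 hUV (connectedComponentIn_subset _ _ hw2) hw1
    have hunc := SBL hX (hQQ u hu.1 v hv.1) hWo isPreconnected_connectedComponentIn
      (mem_connectedComponentIn huU) hvW
    have hne : ({a | a ∈ frontier W ∧ ¬ CS a u ∧ ¬ CS a v} \ (C ∪ D)).Nonempty := by
      by_contra hcon
      rw [not_nonempty_iff_eq_empty, sdiff_eq_empty] at hcon
      exact hunc ((hC.union hD).mono hcon)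
    obtain ⟨a, ⟨ha1, ha2, ha3⟩, ha4⟩ := hne
    rw [hWo.frontier_eq] at ha1
    have haQ : a ∈ Q := by
      refine ⟨fun h' => ha4 (Or.inl h'), ?_⟩
      exact htr q u a hu.1.1 hu.1.2 (fun h' => ha2 h'.symm)
    rcases hcov ⟨haQ, fun h' => ha4 (Or.inr h')⟩ with h1 | h1
    · exact frontier_comp hU ha1.1 ha1.2 h1
    · obtain ⟨w, hw1, hw2⟩ := mem_closure_iff.1 ha1.1 V hV h1
      exact Set.disjoint_left.1 hUV (connectedComponentIn_subset _ _ hw2) hw1
  have hcl : ∀ u : X, u ≠ q → ¬ CS q u → ∀ D : Set X, D.Countable → u ∈ closure (Q \ D) := by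
    intro u huq hqu D hD
    rw [mem_closure_iff]
    intro G hG huG
    obtain ⟨a, haG, -, -, haC, haD, _, haq⟩ := hpick u q huq (fun h' => hqu h'.symm) G hG huG D hD
    exact ⟨a, haG, ⟨haC, fun h' => haq h'.symm⟩, haD⟩
  refine ⟨Q ∪ {x, y}, ⟨⟨x, Or.inr (Or.inl rfl), y, Or.inr (Or.inr rfl), hxy⟩, ?_⟩,
    Or.inr (Or.inl rfl), Or.inr (Or.inr rfl)⟩
  intro D hD
  refine (hQc D hD).subset_closure (sdiff_subset_sdiff_left subset_union_left) ?_
  rintro z ⟨hz | hz | hz, hzD⟩
  · exact subset_closure ⟨hz, hzD⟩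
  · subst hz; exact hcl _ (fun h' => hqx h'.symm) hqx' D hD
  · have hz' : z = y := hz
    subst hz'; exact hcl _ (fun h' => hqy h'.symm) hqy' D hD

end Metric

end Pool.Agent.U954.HLC
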