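import Mathlib
import Pool.Agent.U954.HLC.Sep

set_option autoImplicit false

/-!
Two disjoint connected open links in a locally connected space without cut points.
-/

namespace Pool.Agent.U954.HLC

open Set Topology TopologicalSpace

variable {X : Type*} [TopologicalSpace X]

/-- Shrinking a connected open set to a finite connected union of basic sets. -/
theorem shrink [RegularSpace X] {E : Set (Set X)}
    (hE : ∀ e ∈ E, IsOpen e ∧ IsPreconnected e)
    (hb : ∀ (x : X) (U : Set X), IsOpen U → x ∈ U → ∃ e ∈ E, x ∈ e ∧ e ⊆ U)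
    {H : Set X} (hHc : IsPreconnected H) (hH : IsOpen H) {p q : X} (hp : p ∈ H) (hq : q ∈ H) :
    ∃ F : Set (Set X), F.Finite ∧ F ⊆ E ∧ IsPreconnected (⋃₀ F) ∧ p ∈ ⋃₀ F ∧ q ∈ ⋃₀ F ∧
      closure (⋃₀ F) ⊆ H := by
  have hsm : ∀ z ∈ H, ∃ e ∈ E, z ∈ e ∧ closure e ⊆ H := by
    intro z hz
    obtain ⟨t, ht, htc, htU⟩ := exists_mem_nhds_isClosed_subset (hH.mem_nhds hz)
    obtain ⟨e, he, hze, heU⟩ := hb z (interior t) isOpen_interior (mem_interior_iff_mem_nhds.2 ht)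
    exact ⟨e, he, hze, (closure_minimal (heU.trans interior_subset) htc).trans htU⟩
  set A : Set X := {z | ∃ F : Set (Set X), F.Finite ∧ F ⊆ E ∧ IsPreconnected (⋃₀ F) ∧ p ∈ ⋃₀ F ∧
    z ∈ ⋃₀ F ∧ closure (⋃₀ F) ⊆ H} with hA
  have hAo : IsOpen A := by
    rw [isOpen_iff_mem_nhds]
    rintro z ⟨F, hF, hFE, hFc, hpF, hzF, hFH⟩
    have hFo : IsOpen (⋃₀ F) := isOpen_sUnion fun e he => (hE e (hFE he)).1
    exact Filter.mem_of_superset (hFo.mem_nhds hzF)
      (fun w hw => ⟨F, hF, hFE, hFc, hpF, hw, hFH⟩)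
  have hpA : p ∈ A := by
    obtain ⟨e, he, hpe, heH⟩ := hsm p hp
    refine ⟨{e}, finite_singleton e, singleton_subset_iff.2 he, ?_, ?_, ?_, ?_⟩
    · rw [sUnion_singleton]; exact (hE e he).2
    · rw [sUnion_singleton]; exact hpe
    · rw [sUnion_singleton]; exact hpe
    · rw [sUnion_singleton]; exact heH
  have hAcl : closure A ∩ H ⊆ A := by
    rintro z ⟨hzA, hzH⟩
    obtain ⟨e, he, hze, heH⟩ := hsm z hzH
    obtain ⟨w, hwe, F, hF, hFE, hFc, hpF, hwF, hFH⟩ := mem_closure_iff.1 hzA e (hE e he).1 hze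
    refine ⟨insert e F, hF.insert e, insert_subset he hFE, ?_, ?_, ?_, ?_⟩
    · rw [sUnion_insert]
      exact IsPreconnected.union w hwe hwF (hE e he).2 hFc
    · rw [sUnion_insert]; exact Or.inr hpF
    · rw [sUnion_insert]; exact Or.inl hze
    · rw [sUnion_insert, closure_union]
      exact union_subset heH hFH
  exact hHc.subset_of_closure_inter_subset hAo ⟨p, hp, hpA⟩ hAcl hq

theorem shrink' [RegularSpace X] [LocallyConnectedSpace X]
    {H : Set X} (hHc : IsPreconnected H) (hH : IsOpen H) {p q : X} (hp : p ∈ H) (hq : q ∈ H) :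
    ∃ V : Set X, IsOpen V ∧ IsPreconnected V ∧ p ∈ V ∧ q ∈ V ∧ closure V ⊆ H := by
  obtain ⟨F, -, hFE, hFc, hpF, hqF, hFH⟩ := shrink (E := {e | IsOpen e ∧ IsPreconnected e})
    (fun e he => he)
    (fun x U hU hx => ⟨connectedComponentIn U x, ⟨hU.connectedComponentIn,
      isPreconnected_connectedComponentIn⟩, mem_connectedComponentIn hx,
      connectedComponentIn_subset _ _⟩) hHc hH hp hq
  exact ⟨⋃₀ F, isOpen_sUnion fun e he => (hFE he).1, hFc, hpF, hqF, hFH⟩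

theorem attach1 [LocallyConnectedSpace X] {H R D : Set X} (hH : IsOpen H)
    (hRc : IsPreconnected R) {t : X} (htH : t ∈ H) (htR : t ∈ closure R) (htD : t ∉ closure D) :
    ∃ N : Set X, IsOpen N ∧ IsPreconnected N ∧ t ∈ N ∧ N ⊆ H ∧ Disjoint N D ∧
      IsPreconnected (R ∪ N) := by
  have ho : IsOpen (H \ closure D) := hH.sdiff isClosed_closure
  refine ⟨connectedComponentIn (H \ closure D) t, ho.connectedComponentIn,
    isPreconnected_connectedComponentIn, mem_connectedComponentIn ⟨htH, htD⟩,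
    (connectedComponentIn_subset _ _).trans sdiff_subset, ?_, ?_⟩
  · rw [Set.disjoint_left]
    intro z hz hzD
    exact (connectedComponentIn_subset _ _ hz).2 (subset_closure hzD)
  · obtain ⟨w, hw1, hw2⟩ := mem_closure_iff.1 htR _ ho.connectedComponentIn
      (mem_connectedComponentIn (⟨htH, htD⟩ : t ∈ H \ closure D))
    exact IsPreconnected.union w hw2 hw1 hRc isPreconnected_connectedComponentIn

theorem attach2 [LocallyConnectedSpace X] {H R D K : Set X} (hH : IsOpen H)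
    (hRc : IsPreconnected R) {t : X} (htH : t ∈ H) (htR : t ∈ closure R) (htD : t ∉ closure D)
    (hK : IsOpen K) (hKc : IsPreconnected K) (htK : t ∈ closure K) (hKH : K ⊆ H)
    (hKD : Disjoint K D) :
    ∃ G : Set X, IsOpen G ∧ K ⊆ G ∧ G ⊆ H ∧ Disjoint G D ∧ IsPreconnected (R ∪ G) := by
  obtain ⟨N, hN, hNc, htN, hNH, hND, hRN⟩ := attach1 hH hRc htH htR htD
  refine ⟨N ∪ K, hN.union hK, subset_union_right, union_subset hNH hKH,
    Set.disjoint_union_left.2 ⟨hND, hKD⟩, ?_⟩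
  rw [← union_assoc]
  obtain ⟨w, hw1, hw2⟩ := mem_closure_iff.1 htK N hN htN
  exact IsPreconnected.union w (Or.inr hw1) hw2 hRN hKc

/-- Attaching a point of a connected open set to one of two sets. -/
theorem attach [LocallyConnectedSpace X] {H R D : Set X} (hH : IsOpen H)
    (hHc : IsPreconnected H) (hRc : IsPreconnected R) (hDc : IsPreconnected D)
    (hRD : Disjoint (closure R) (closure D)) (hm : (H ∩ (closure R ∪ closure D)).Nonempty)
    {p : X} (hp : p ∈ H) :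
    ∃ G : Set X, IsOpen G ∧ G ⊆ H ∧ p ∈ G ∧ ((IsPreconnected (R ∪ G) ∧ Disjoint G D) ∨
      (IsPreconnected (D ∪ G) ∧ Disjoint G R)) := by
  have hRD' : ∀ z, z ∈ closure R → z ∉ closure D := fun z h1 h2 => Set.disjoint_left.1 hRD h1 h2
  have hDR' : ∀ z, z ∈ closure D → z ∉ closure R := fun z h1 h2 => Set.disjoint_left.1 hRD h2 h1
  by_cases hpR : p ∈ closure R
  · obtain ⟨N, hN, hNc, htN, hNH, hND, hRN⟩ := attach1 hH hRc hp hpR (hRD' p hpR)
    exact ⟨N, hN, hNH, htN, Or.inl ⟨hRN, hND⟩⟩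
  by_cases hpD : p ∈ closure D
  · obtain ⟨N, hN, hNc, htN, hNH, hND, hRN⟩ := attach1 hH hDc hp hpD (hDR' p hpD)
    exact ⟨N, hN, hNH, htN, Or.inr ⟨hRN, hND⟩⟩
  set V : Set X := H \ (closure R ∪ closure D) with hV
  have hVo : IsOpen V := hH.sdiff (isClosed_closure.union isClosed_closure)
  have hpV : p ∈ V := ⟨hp, fun h => h.elim hpR hpD⟩
  set K : Set X := connectedComponentIn V p with hK
  have hKo : IsOpen K := hVo.connectedComponentIn
  have hKc : IsPreconnected K := isPreconnected_connectedComponentIn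
  have hpK : p ∈ K := mem_connectedComponentIn hpV
  have hKV : K ⊆ V := connectedComponentIn_subset _ _
  have hKH : K ⊆ H := hKV.trans sdiff_subset
  have hKR : Disjoint K R := by
    rw [Set.disjoint_left]
    intro z hz hzR
    exact (hKV hz).2 (Or.inl (subset_closure hzR))
  have hKD : Disjoint K D := by
    rw [Set.disjoint_left]
    intro z hz hzD
    exact (hKV hz).2 (Or.inr (subset_closure hzD))
  obtain ⟨t, htH, htK, htn⟩ := exists_bd hHc hKo ⟨p, hp, hpK⟩ (by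
    obtain ⟨w, hwH, hw⟩ := hm
    exact fun h => (hKV (h hwH)).2 hw)
  have htV : t ∉ V := frontier_comp hVo htK htn
  have ht : t ∈ closure R ∪ closure D := by
    by_contra hcon
    exact htV ⟨htH, hcon⟩
  rcases ht with ht | ht
  · obtain ⟨G, hG, hKG, hGH, hGD, hRG⟩ :=
      attach2 hH hRc htH ht (hRD' t ht) hKo hKc htK hKH hKD
    exact ⟨G, hG, hGH, hKG hpK, Or.inl ⟨hRG, hGD⟩⟩
  · obtain ⟨G, hG, hKG, hGH, hGD, hRG⟩ :=
      attach2 hH hDc htH ht (hDR' t ht) hKo hKc htK hKH hKR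
    exact ⟨G, hG, hGH, hKG hpK, Or.inr ⟨hRG, hGD⟩⟩

theorem nontrivial_of_open [T1Space X] (hc : IsPreconnected (univ : Set X))
    (hnt : (univ : Set X).Nontrivial) {G : Set X} (hG : IsOpen G) (hn : G.Nonempty) :
    G.Nontrivial := by
  by_contra hcon
  rw [not_nontrivial_iff] at hcon
  obtain ⟨z, hz⟩ := hn
  have hGz : G = {z} := hcon.eq_singleton_of_mem hz
  have hcl : IsClosed G := by rw [hGz]; exact isClosed_singleton
  have h1 : univ ⊆ G := hc.subset_of_closure_inter_subset hG ⟨z, mem_univ z, hz⟩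
    (by rw [hcl.closure_eq]; exact inter_subset_left)
  obtain ⟨a, _, b, _, hab⟩ := hnt
  exact hab (hcon (h1 (mem_univ a)) (h1 (mem_univ b)))

/-- Two disjoint connected open links from `A` to `O`. -/
def Linked (A O : Set X) : Prop :=
  ∃ R D : Set X, IsOpen R ∧ IsPreconnected R ∧ IsOpen D ∧ IsPreconnected D ∧ Disjoint R D ∧
    (R ∩ A).Nonempty ∧ (D ∩ A).Nonempty ∧ (R ∩ O).Nonempty ∧ (D ∩ O).Nonempty

theorem trimlem [LocallyConnectedSpace X] {R L : Set X} (hR : IsOpen R)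
    (hRc : IsPreconnected R) {r : X} (hr : r ∈ R) (hrL : r ∉ closure L)
    (hRL : (R ∩ L).Nonempty) :
    ∃ (R0 : Set X) (t : X), IsOpen R0 ∧ IsPreconnected R0 ∧ r ∈ R0 ∧ R0 ⊆ R ∧
      Disjoint R0 (closure L) ∧ t ∈ R ∧ t ∈ closure R0 ∧ t ∈ closure L := by
  have ho : IsOpen (R \ closure L) := hR.sdiff isClosed_closure
  have hsub : connectedComponentIn (R \ closure L) r ⊆ R \ closure L :=
    connectedComponentIn_subset _ _
  obtain ⟨t, htR, htc, htn⟩ := exists_bd hRc (ho.connectedComponentIn (x := r))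
    ⟨r, hr, mem_connectedComponentIn ⟨hr, hrL⟩⟩ (by
      obtain ⟨w, hwR, hwL⟩ := hRL
      exact fun h => (hsub (h hwR)).2 (subset_closure hwL))
  refine ⟨connectedComponentIn (R \ closure L) r, t, ho.connectedComponentIn,
    isPreconnected_connectedComponentIn, mem_connectedComponentIn ⟨hr, hrL⟩,
    hsub.trans sdiff_subset, ?_, htR, htc, ?_⟩
  · rw [Set.disjoint_left]
    intro z hz
    exact (hsub hz).2
  · by_contra hcon
    exact frontier_comp ho htc htn ⟨htR, hcon⟩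

theorem linked_all [T3Space X] [LocallyConnectedSpace X] (hc : IsPreconnected (univ : Set X))
    (hnt : (univ : Set X).Nontrivial) (hcut : ∀ z : X, IsPreconnected ({z}ᶜ : Set X))
    {A : Set X} (hA : IsOpen A) (hAn : A.Nonempty) {y : X} {O : Set X}
    (hO : IsOpen O) (hy : y ∈ O) : Linked A O := by
  by_contra hnl
  have hAnt : A.Nontrivial := nontrivial_of_open hc hnt hA hAn
  set W : Set X := {z | ∃ G : Set X, IsOpen G ∧ z ∈ G ∧ ¬ Linked A G} with hWdef
  have hWo : IsOpen W := by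
    rw [isOpen_iff_mem_nhds]
    rintro z ⟨G, hG, hzG, hn⟩
    exact Filter.mem_of_superset (hG.mem_nhds hzG) (fun w hw => ⟨G, hG, hw, hn⟩)
  have hnW : ∀ z, z ∉ W → ∀ G : Set X, IsOpen G → z ∈ G → Linked A G := by
    intro z hz G hG hzG
    by_contra hcon
    exact hz ⟨G, hG, hzG, hcon⟩
  have hyW : y ∈ W := ⟨O, hO, hy, hnl⟩
  -- A consists of linked points
  have hAW : ∀ z ∈ A, z ∉ W := by
    rintro z hz ⟨G, hG, hzG, hn⟩
    apply hn
    obtain ⟨a, ha, b, hb, hab⟩ := nontrivial_of_open hc hnt (hG.inter hA) ⟨z, hzG, hz⟩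
    obtain ⟨U, V, hU, hV, haU, hbV, hUV⟩ := t2_separation hab
    refine ⟨connectedComponentIn (U ∩ (G ∩ A)) a, connectedComponentIn (V ∩ (G ∩ A)) b,
      (hU.inter (hG.inter hA)).connectedComponentIn, isPreconnected_connectedComponentIn,
      (hV.inter (hG.inter hA)).connectedComponentIn, isPreconnected_connectedComponentIn,
      ?_, ?_, ?_, ?_, ?_⟩
    · exact hUV.mono ((connectedComponentIn_subset _ _).trans inter_subset_left)
        ((connectedComponentIn_subset _ _).trans inter_subset_left)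
    · exact ⟨a, mem_connectedComponentIn ⟨haU, ha⟩, ha.2⟩
    · exact ⟨b, mem_connectedComponentIn ⟨hbV, hb⟩, hb.2⟩
    · exact ⟨a, mem_connectedComponentIn ⟨haU, ha⟩, ha.1⟩
    · exact ⟨b, mem_connectedComponentIn ⟨hbV, hb⟩, hb.1⟩
  set U : Set X := connectedComponentIn W y with hUdef
  have hUo : IsOpen U := hWo.connectedComponentIn
  have hUc : IsPreconnected U := isPreconnected_connectedComponentIn
  have hyU : y ∈ U := mem_connectedComponentIn hyW
  have hUW : U ⊆ W := connectedComponentIn_subset _ _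
  have hfr : ∀ z ∈ closure U, z ∉ U → z ∉ W := fun z h1 h2 => frontier_comp hWo h1 h2
  -- Lemma X
  have lemX : ∀ Γ Γ' : Set X, IsOpen Γ → IsPreconnected Γ → IsOpen Γ' → IsPreconnected Γ' →
      Disjoint Γ Γ' → (Γ ∩ A).Nonempty → (Γ' ∩ A).Nonempty → (Γ ∩ U).Nonempty →
      (Γ' ∩ U).Nonempty → False := by
    rintro Γ Γ' hΓ hΓc hΓ' hΓc' hd hΓA hΓA' ⟨g, hg, hgU⟩ ⟨g', hg', hgU'⟩
    have ho : IsOpen ((Γ ∪ U) \ closure Γ') := (hΓ.union hUo).sdiff isClosed_closure
    have hdc : Disjoint Γ (closure Γ') := hd.closure_right hΓ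
    have hΓs : Γ ⊆ (Γ ∪ U) \ closure Γ' := fun z hz =>
      ⟨Or.inl hz, fun h => Set.disjoint_left.1 hdc hz h⟩
    set P : Set X := connectedComponentIn ((Γ ∪ U) \ closure Γ') g with hP
    have hPo : IsOpen P := ho.connectedComponentIn
    have hPs : P ⊆ (Γ ∪ U) \ closure Γ' := connectedComponentIn_subset _ _
    have hΓP : Γ ⊆ P := hΓc.subset_connectedComponentIn hg hΓs
    obtain ⟨f, hfU, hfc, hfn⟩ := exists_bd hUc hPo ⟨g, hgU, hΓP hg⟩
      (fun h => (hPs (h hgU')).2 (subset_closure hg'))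
    have hf1 : f ∉ (Γ ∪ U) \ closure Γ' := frontier_comp ho hfc hfn
    have hf2 : f ∈ closure Γ' := by
      by_contra hcon
      exact hf1 ⟨Or.inr hfU, hcon⟩
    obtain ⟨G, hG, hfG, hn⟩ := hUW hfU
    apply hn
    refine ⟨P, Γ', hPo, isPreconnected_connectedComponentIn, hΓ', hΓc', ?_, ?_, hΓA', ?_, ?_⟩
    · rw [Set.disjoint_left]
      intro z hz hz'
      exact (hPs hz).2 (subset_closure hz')
    · obtain ⟨a, ha, ha'⟩ := hΓA
      exact ⟨a, hΓP ha, ha'⟩
    · rw [inter_comm]; exact mem_closure_iff.1 hfc G hG hfG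
    · rw [inter_comm]; exact mem_closure_iff.1 hf2 G hG hfG
  -- two points of the boundary
  have h2 : ∃ z z' : X, z ≠ z' ∧ z ∈ closure U ∧ z ∉ U ∧ z' ∈ closure U ∧ z' ∉ U := by
    obtain ⟨a, haA⟩ := hAn
    obtain ⟨z, _, hz, hzn⟩ := exists_bd hc hUo ⟨y, mem_univ y, hyU⟩
      (fun h => hAW a haA (hUW (h (mem_univ a))))
    by_contra hcon
    have huniq : ∀ w ∈ closure U, w ∉ U → w = z := by
      intro w hw hwn
      by_contra hwz
      exact hcon ⟨w, z, hwz, hw, hwn, hz, hzn⟩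
    have hsub : ({z}ᶜ : Set X) ⊆ U := by
      refine (hcut z).subset_of_closure_inter_subset hUo ⟨y, ?_, hyU⟩ ?_
      · intro h; have h' : y = z := h; exact hzn (h' ▸ hyU)
      · rintro w ⟨hw, hwz⟩
        by_contra hwn
        exact hwz (huniq w hw hwn)
    obtain ⟨b, hb, hbz⟩ := hAnt.exists_ne z
    exact hAW b hb (hUW (hsub hbz))
  obtain ⟨z, z', hzz, hzc, hzn, hzc', hzn'⟩ := h2
  obtain ⟨a, haA, haz⟩ := hAnt.exists_ne z
  obtain ⟨E, hE, hEc, hzE', haE, hEz⟩ := shrink' (hcut z) isOpen_compl_singleton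
    (show z' ∈ ({z}ᶜ : Set X) from fun h => hzz (Eq.symm h)) (show a ∈ ({z}ᶜ : Set X) from haz)
  have hzE : z ∉ closure E := fun h => hEz h rfl
  have hEA : (E ∩ A).Nonempty := ⟨a, haE, haA⟩
  have hEU : (E ∩ U).Nonempty := mem_closure_iff.1 hzc' E hE hzE'
  by_cases hzA : z ∈ closure A
  · have ho : IsOpen (closure E)ᶜ := isClosed_closure.isOpen_compl
    have hL : IsOpen (connectedComponentIn (closure E)ᶜ z) := ho.connectedComponentIn
    have hzL : z ∈ connectedComponentIn (closure E)ᶜ z := mem_connectedComponentIn hzE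
    refine lemX _ E hL isPreconnected_connectedComponentIn hE hEc ?_
      (mem_closure_iff.1 hzA _ hL hzL) hEA (mem_closure_iff.1 hzc _ hL hzL) hEU
    rw [Set.disjoint_left]
    intro w hw hwE
    exact connectedComponentIn_subset _ _ hw (subset_closure hwE)
  obtain ⟨L, hL, hLc, hzL, hLs⟩ := small_nbhd (x := z) (U := (closure E)ᶜ ∩ (closure A)ᶜ)
    (isClosed_closure.isOpen_compl.inter isClosed_closure.isOpen_compl) ⟨hzE, hzA⟩
  have hLU : (L ∩ U).Nonempty := mem_closure_iff.1 hzc L hL hzL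
  obtain ⟨R', D', hR', hRc', hD', hDc', hRD', ⟨rA, hrA1, hrA2⟩, ⟨dA, hdA1, hdA2⟩,
    ⟨rL, hrL1, hrL2⟩, ⟨dL, hdL1, hdL2⟩⟩ := hnW z (hfr z hzc hzn) L hL hzL
  obtain ⟨R, hR, hRc, hrAR, hrLR, hRs⟩ := shrink' hRc' hR' hrA1 hrL1
  obtain ⟨D, hD, hDc, hdAD, hdLD, hDs⟩ := shrink' hDc' hD' hdA1 hdL1
  have hRD : Disjoint (closure R) (closure D) := hRD'.mono hRs hDs
  have hAL : ∀ w ∈ A, w ∉ closure L := fun w hw h => (hLs h).2 (subset_closure hw)
  obtain ⟨R0, tR, hR0, hRc0, hrR0, hRs0, hRL0, htR1, htR2, htR3⟩ :=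
    trimlem hR hRc hrAR (hAL _ hrA2) ⟨rL, hrLR, hrL2⟩
  obtain ⟨D0, tD, hD0, hDc0, hdD0, hDs0, hDL0, htD1, htD2, htD3⟩ :=
    trimlem hD hDc hdAD (hAL _ hdA2) ⟨dL, hdLD, hdL2⟩
  -- the key step
  have key : ∀ (R0 D D0 Γ : Set X) (t : X), Disjoint R0 D → Disjoint R0 (closure L) →
      IsOpen D → t ∈ D → t ∈ closure D0 → t ∈ closure L → IsOpen D0 → IsPreconnected D0 →
      (D0 ∩ A).Nonempty → Γ ⊆ R0 ∪ E → Disjoint Γ D0 → IsOpen Γ → IsPreconnected Γ →
      (Γ ∩ A).Nonempty → (Γ ∩ U).Nonempty → False := by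
    intro R0 D D0 Γ t h1 h2 h3 h4 h5 h6 h7 h8 h9 h10 h11 h12 h13 h14 h15
    have ho : IsOpen (D \ closure E) := h3.sdiff isClosed_closure
    have htE : t ∉ closure E := (hLs h6).1
    set N : Set X := connectedComponentIn (D \ closure E) t with hN
    have hNo : IsOpen N := ho.connectedComponentIn
    have htN : t ∈ N := mem_connectedComponentIn ⟨h4, htE⟩
    have hNs : N ⊆ D \ closure E := connectedComponentIn_subset _ _
    obtain ⟨w1, hw1N, hw1D⟩ := mem_closure_iff.1 h5 N hNo htN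
    obtain ⟨w2, hw2N, hw2L⟩ := mem_closure_iff.1 h6 N hNo htN
    refine lemX Γ (D0 ∪ N ∪ L) h12 h13 ((h7.union hNo).union hL) ?_ ?_ h14 ?_ h15 ?_
    · exact IsPreconnected.union w2 (Or.inr hw2N) hw2L
        (IsPreconnected.union w1 hw1D hw1N h8 isPreconnected_connectedComponentIn) hLc
    · rw [Set.disjoint_left]
      rintro w hw ((hw' | hw') | hw')
      · exact Set.disjoint_left.1 h11 hw hw'
      · rcases h10 hw with h | h
        · exact Set.disjoint_left.1 h1 h (hNs hw').1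
        · exact (hNs hw').2 (subset_closure h)
      · rcases h10 hw with h | h
        · exact Set.disjoint_left.1 h2 h (subset_closure hw')
        · exact (hLs (subset_closure hw')).1 (subset_closure h)
    · obtain ⟨b, hb1, hb2⟩ := h9
      exact ⟨b, Or.inl (Or.inl hb1), hb2⟩
    · obtain ⟨b, hb1, hb2⟩ := hLU
      exact ⟨b, Or.inr hb1, hb2⟩
  have hRDo : ∀ w, w ∈ R → w ∉ D := fun w h1 h2 =>
    Set.disjoint_left.1 hRD (subset_closure h1) (subset_closure h2)
  have hR0D : Disjoint R0 D := by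
    rw [Set.disjoint_left]; exact fun w hw => hRDo w (hRs0 hw)
  have hD0R : Disjoint D0 R := by
    rw [Set.disjoint_left]; exact fun w hw h => hRDo w h (hDs0 hw)
  have hR0D0 : Disjoint R0 D0 := hR0D.mono_right hDs0
  have hcl0 : Disjoint (closure R0) (closure D0) :=
    hRD.mono (closure_mono hRs0) (closure_mono hDs0)
  by_cases hm : (E ∩ (closure R0 ∪ closure D0)).Nonempty
  · obtain ⟨G, hG, hGE, hzG, hcase⟩ := attach hE hEc hRc0 hDc0 hcl0 hm hzE'
    have hGU : (G ∩ U).Nonempty := mem_closure_iff.1 hzc' G hG hzG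
    obtain ⟨gu, hgu1, hgu2⟩ := hGU
    rcases hcase with ⟨h1, h2⟩ | ⟨h1, h2⟩
    · exact key R0 D D0 (R0 ∪ G) tD hR0D hRL0 hD htD1 htD2 htD3 hD0 hDc0 ⟨dA, hdD0, hdA2⟩
        (union_subset_union_right _ hGE) (Set.disjoint_union_left.2 ⟨hR0D0, h2⟩)
        (hR0.union hG) h1 ⟨rA, Or.inl hrR0, hrA2⟩ ⟨gu, Or.inr hgu1, hgu2⟩
    · exact key D0 R R0 (D0 ∪ G) tR hD0R hDL0 hR htR1 htR2 htR3 hR0 hRc0 ⟨rA, hrR0, hrA2⟩
        (union_subset_union_right _ hGE) (Set.disjoint_union_left.2 ⟨hR0D0.symm, h2⟩)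
        (hD0.union hG) h1 ⟨dA, Or.inl hdD0, hdA2⟩ ⟨gu, Or.inr hgu1, hgu2⟩
  · refine key R0 D D0 E tD hR0D hRL0 hD htD1 htD2 htD3 hD0 hDc0 ⟨dA, hdD0, hdA2⟩
      subset_union_right ?_ hE hEc hEA hEU
    rw [Set.disjoint_left]
    intro w hw hw'
    exact hm ⟨w, hw, Or.inr (subset_closure hw')⟩

/-- The form used later: one link passes through the given point. -/
theorem menger2 [T3Space X] [LocallyConnectedSpace X] (hc : IsPreconnected (univ : Set X))
    (hnt : (univ : Set X).Nontrivial) (hcut : ∀ z : X, IsPreconnected ({z}ᶜ : Set X))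
    {A : Set X} (hA : IsOpen A) (hAn : A.Nonempty) {y : X} {O : Set X}
    (hO : IsOpen O) (hy : y ∈ O) :
    ∃ R D : Set X, IsOpen R ∧ IsPreconnected R ∧ IsOpen D ∧ IsPreconnected D ∧ Disjoint R D ∧
      y ∈ R ∧ (R ∩ A).Nonempty ∧ (D ∩ A).Nonempty ∧ (D ∩ O).Nonempty := by
  set H : Set X := connectedComponentIn O y with hH
  have hHo : IsOpen H := hO.connectedComponentIn
  have hyH : y ∈ H := mem_connectedComponentIn hy
  have hHO : H ⊆ O := connectedComponentIn_subset _ _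
  obtain ⟨R', D', hR', hRc', hD', hDc', hRD', ⟨rA, hrA1, hrA2⟩, ⟨dA, hdA1, hdA2⟩,
    ⟨rL, hrL1, hrL2⟩, ⟨dL, hdL1, hdL2⟩⟩ := linked_all hc hnt hcut hA hAn hHo hyH
  obtain ⟨R, hR, hRc, hrAR, hrLR, hRs⟩ := shrink' hRc' hR' hrA1 hrL1
  obtain ⟨D, hD, hDc, hdAD, hdLD, hDs⟩ := shrink' hDc' hD' hdA1 hdL1
  have hRD : Disjoint (closure R) (closure D) := hRD'.mono hRs hDs
  have hRDo : Disjoint R D := hRD.mono subset_closure subset_closure
  obtain ⟨G, hG, hGH, hyG, hcase⟩ := attach hHo isPreconnected_connectedComponentIn hRc hDc hRD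
    ⟨rL, hrL2, Or.inl (subset_closure hrLR)⟩ hyH
  rcases hcase with ⟨h1, h2⟩ | ⟨h1, h2⟩
  · exact ⟨R ∪ G, D, hR.union hG, h1, hD, hDc, Set.disjoint_union_left.2 ⟨hRDo, h2⟩, Or.inr hyG,
      ⟨rA, Or.inl hrAR, hrA2⟩, ⟨dA, hdAD, hdA2⟩, ⟨dL, hdLD, hHO hdL2⟩⟩
  · exact ⟨D ∪ G, R, hD.union hG, h1, hR, hRc, Set.disjoint_union_left.2 ⟨hRDo.symm, h2⟩,
      Or.inr hyG, ⟨dA, Or.inl hdAD, hdA2⟩, ⟨rA, hrAR, hrA2⟩, ⟨rL, hrLR, hHO hrL2⟩⟩

end Pool.Agent.U954.HLC
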