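import Mathlib
import Pool.Agent.U954.HLC.Menger

set_option autoImplicit false

/-!
A hereditarily locally connected separable metric space has no thick subset.
-/

namespace Pool.Agent.U954.HLC

open Set Topology TopologicalSpace

theorem exists_basis {X : Type*} [TopologicalSpace X] [SecondCountableTopology X]
    [LocallyConnectedSpace X] :
    ∃ E : Set (Set X), E.Countable ∧ (∀ e ∈ E, IsOpen e ∧ IsPreconnected e) ∧
      ∀ (x : X) (U : Set X), IsOpen U → x ∈ U → ∃ e ∈ E, x ∈ e ∧ e ⊆ U := by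
  obtain ⟨D, hD, hDd⟩ := exists_countable_dense X
  refine ⟨image2 connectedComponentIn (countableBasis X) D,
    (countable_countableBasis X).image2 hD _, ?_, ?_⟩
  · rintro _ ⟨B, hB, d, _, rfl⟩
    exact ⟨(isOpen_of_mem_countableBasis hB).connectedComponentIn,
      isPreconnected_connectedComponentIn⟩
  · intro x U hU hx
    obtain ⟨B, hB, hxB, hBU⟩ := (isBasis_countableBasis X).exists_subset_of_mem_open hx hU
    have hK : IsOpen (connectedComponentIn B x) :=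
      (isOpen_of_mem_countableBasis hB).connectedComponentIn
    obtain ⟨d, hdK, hdD⟩ := hDd.inter_open_nonempty _ hK ⟨x, mem_connectedComponentIn hxB⟩
    refine ⟨connectedComponentIn B d, ⟨B, hB, d, hdD, rfl⟩, ?_,
      (connectedComponentIn_subset _ _).trans hBU⟩
    rw [← connectedComponentIn_eq hdK]
    exact mem_connectedComponentIn hxB

theorem Thick.image_val {X : Type*} [TopologicalSpace X] {S : Set X} {T : Set S}
    (h : Thick T) : Thick (Subtype.val '' T) := by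
  refine ⟨h.1.image Subtype.val_injective, ?_⟩
  intro C hC
  have h1 : (Subtype.val '' T) \ C = Subtype.val '' (T \ (Subtype.val ⁻¹' C)) := by
    ext z
    constructor
    · rintro ⟨⟨t, ht, rfl⟩, hz⟩
      exact ⟨t, ⟨ht, hz⟩, rfl⟩
    · rintro ⟨t, ⟨ht, hz⟩, rfl⟩
      exact ⟨⟨t, ht, rfl⟩, hz⟩
  rw [h1]
  exact (h.2 _ (hC.preimage Subtype.val_injective)).image _ continuous_subtype_val.continuousOn

theorem Thick.univ_subtype {X : Type*} [TopologicalSpace X] {T : Set X}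
    (h : Thick T) : Thick (univ : Set T) := by
  constructor
  · obtain ⟨a, ha, b, hb, hab⟩ := h.1
    exact ⟨⟨a, ha⟩, mem_univ _, ⟨b, hb⟩, mem_univ _, fun h' => hab (congrArg Subtype.val h')⟩
  · intro C hC
    rw [← IsInducing.subtypeVal.isPreconnected_image]
    have h1 : Subtype.val '' (univ \ C) = T \ (Subtype.val '' C) := by
      ext z
      constructor
      · rintro ⟨t, ⟨_, ht⟩, rfl⟩
        refine ⟨t.2, ?_⟩
        rintro ⟨s, hs, hst⟩
        exact ht (Subtype.ext hst ▸ hs)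
      · rintro ⟨hz, hn⟩
        exact ⟨⟨z, hz⟩, ⟨mem_univ _, fun h' => hn ⟨_, h', rfl⟩⟩, rfl⟩
    rw [h1]
    exact h.2 _ (hC.image _)

theorem claimStep {Y : Type*} [MetricSpace Y] [SecondCountableTopology Y] (hY : HLC Y)
    (hth : Thick (univ : Set Y)) {y : Y} {N : Set Y} (hN : IsOpen N) (hNn : N.Nonempty)
    (hyN : y ∉ closure N) {O : Set Y} (hO : IsOpen O) (hyO : y ∈ O) :
    ∃ L T : Set Y, IsOpen L ∧ IsPreconnected L ∧ (L ∩ N).Nonempty ∧ (L ∩ O).Nonempty ∧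
      y ∉ closure L ∧ Thick T ∧ y ∈ T ∧ (T ∩ N).Nonempty ∧ Disjoint T (closure L) := by
  classical
  by_contra hcon
  have hYl : LocallyConnectedSpace Y := hY.locallyConnected hth.preconn
  obtain ⟨E, hEc, hE, hEb⟩ := exists_basis (X := Y)
  -- the countable set of a candidate
  have hCL : ∀ L : Set Y, ∃ C : Set Y, C.Countable ∧ y ∉ C ∧ (IsOpen L → IsPreconnected L →
      (L ∩ N).Nonempty → (L ∩ O).Nonempty → y ∉ closure L → ∀ R : Set Y, IsPreconnected R →
      y ∈ R → R ⊆ (closure L)ᶜ → Disjoint R C → ¬ (R ∩ N).Nonempty) := by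
    intro L
    by_cases hgood : IsOpen L ∧ IsPreconnected L ∧ (L ∩ N).Nonempty ∧ (L ∩ O).Nonempty ∧
      y ∉ closure L
    swap
    · exact ⟨∅, countable_empty, notMem_empty y, fun h1 h2 h3 h4 h5 =>
        absurd ⟨h1, h2, h3, h4, h5⟩ hgood⟩
    obtain ⟨hL, hLc, hLN, hLO, hyL⟩ := hgood
    have hG : IsOpen (closure L)ᶜ := isClosed_closure.isOpen_compl
    have hGl : LocallyConnectedSpace ↥((closure L)ᶜ) := hG.locallyConnectedSpace
    have hGh : HLC ↥((closure L)ᶜ) := hY.subtype _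
    have hcs : ∀ x : ↥((closure L)ᶜ), x.1 ∈ N → CS x (⟨y, hyL⟩ : ↥((closure L)ᶜ)) := by
      intro x hx
      by_contra hncs
      have hne : x ≠ (⟨y, hyL⟩ : ↥((closure L)ᶜ)) := by
        intro h
        have h' : x.1 = y := congrArg Subtype.val h
        exact hyN (subset_closure (h' ▸ hx))
      obtain ⟨T, hT, hxT, hyT⟩ := exists_thick hGh hne hncs
      refine hcon ⟨L, Subtype.val '' T, hL, hLc, hLN, hLO, hyL, hT.image_val, ⟨_, hyT, rfl⟩,
        ⟨x.1, ⟨x, hxT, rfl⟩, hx⟩, ?_⟩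
      rw [Set.disjoint_left]
      rintro _ ⟨t, _, rfl⟩ h
      exact t.2 h
    obtain ⟨Q, hQ, hPQ, hcov⟩ := lindelof_seq (F := {x : ↥((closure L)ᶜ) | x.1 ∈ N})
      (P := fun Q => (⟨y, hyL⟩ : ↥((closure L)ᶜ)) ∉ closure Q ∧ (frontier Q).Countable)
      (fun a ha => by
        obtain ⟨Q, h1, h2, h3, h4⟩ := hcs a ha
        exact ⟨Q, h1, h2, h3, h4⟩) (by simp)
    refine ⟨⋃ i, Subtype.val '' (frontier (Q i)), countable_iUnion fun i => (hPQ i).2.image _,
      ?_, ?_⟩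
    · intro h
      obtain ⟨i, z, hz, hzy⟩ := mem_iUnion.1 h
      have : z = (⟨y, hyL⟩ : ↥((closure L)ᶜ)) := Subtype.ext hzy
      exact (hPQ i).1 (this ▸ frontier_subset_closure hz)
    · rintro _ _ _ _ _ R hR hyR hRL hRC ⟨x, hxR, hxN⟩
      have hR' : IsPreconnected (Subtype.val ⁻¹' R : Set ↥((closure L)ᶜ)) := by
        rw [← IsInducing.subtypeVal.isPreconnected_image, Subtype.image_preimage_coe,
          inter_eq_right.2 hRL]
        exact hR
      obtain ⟨i, hi⟩ := mem_iUnion.1 (hcov (show (⟨x, hRL hxR⟩ : ↥((closure L)ᶜ)) ∈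
        {x : ↥((closure L)ᶜ) | x.1 ∈ N} from hxN))
      obtain ⟨z, hzR, hzc, hzn⟩ := exists_bd hR' (hQ i) ⟨⟨x, hRL hxR⟩, hxR, hi⟩
        (fun h => (hPQ i).1 (subset_closure (h (show (⟨y, hyL⟩ : ↥((closure L)ᶜ)) ∈
          (Subtype.val ⁻¹' R : Set ↥((closure L)ᶜ)) from hyR))))
      refine Set.disjoint_left.1 hRC hzR (mem_iUnion.2 ⟨i, z, ?_, rfl⟩)
      rw [(hQ i).frontier_eq]
      exact ⟨hzc, hzn⟩
  choose CL hCLc hyCL hCLp using hCL
  -- countably many candidates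
  set Ls : Set (Set Y) := sUnion '' {F : Set (Set Y) | F.Finite ∧ F ⊆ E} with hLs
  have hLsc : Ls.Countable := (countable_ofPred_finite_subset hEc).image _
  set C : Set Y := ⋃ L ∈ Ls, CL L with hC
  have hCc : C.Countable := hLsc.biUnion (fun L _ => hCLc L)
  have hyC : y ∉ C := by
    intro h
    obtain ⟨L, _, hL⟩ := mem_iUnion₂.1 h
    exact hyCL L hL
  have hMp : IsPreconnected (Cᶜ : Set Y) := by
    have := hth.2 C hCc
    rwa [← compl_eq_univ_sdiff] at this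
  have hMl : LocallyConnectedSpace ↥(Cᶜ : Set Y) := hY _ hMp
  have hMu : IsPreconnected (univ : Set ↥(Cᶜ : Set Y)) := by
    rw [← IsInducing.subtypeVal.isPreconnected_image, image_univ, Subtype.range_coe]
    exact hMp
  have hMcut : ∀ z : ↥(Cᶜ : Set Y), IsPreconnected ({z}ᶜ : Set ↥(Cᶜ : Set Y)) := by
    intro z
    rw [← IsInducing.subtypeVal.isPreconnected_image]
    have h1 : Subtype.val '' ({z}ᶜ : Set ↥(Cᶜ : Set Y)) = univ \ (C ∪ {z.1}) := by
      ext w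
      constructor
      · rintro ⟨t, ht, rfl⟩
        refine ⟨mem_univ _, ?_⟩
        rintro (h | h)
        · exact t.2 h
        · exact ht (Subtype.ext h)
      · rintro ⟨_, hw⟩
        refine ⟨⟨w, fun h => hw (Or.inl h)⟩, ?_, rfl⟩
        intro h
        exact hw (Or.inr (congrArg Subtype.val h))
    rw [h1]
    exact hth.2 _ (hCc.union (countable_singleton _))
  have hNu : ¬ (N ∩ univ).Countable := hth.uncountable hN (by simpa using hNn)
  obtain ⟨n, hnN, hnC⟩ : ∃ n, n ∈ N ∧ n ∉ C := by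
    by_contra hcc
    apply hNu
    refine hCc.mono ?_
    rintro n ⟨hn, _⟩
    by_contra h
    exact hcc ⟨n, hn, h⟩
  have hny : n ≠ y := by
    rintro rfl
    exact hyN (subset_closure hnN)
  have hMnt : (univ : Set ↥(Cᶜ : Set Y)).Nontrivial :=
    ⟨⟨n, hnC⟩, mem_univ _, ⟨y, hyC⟩, mem_univ _, fun h => hny (congrArg Subtype.val h)⟩
  obtain ⟨R, D, hR, hRc, hD, hDc, hRD, hyR, ⟨r, hrR, hrN⟩, ⟨d1, hd1D, hd1N⟩, ⟨d2, hd2D, hd2O⟩⟩ :=
    menger2 hMu hMnt hMcut (hN.preimage continuous_subtype_val) ⟨⟨n, hnC⟩, hnN⟩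
      (y := (⟨y, hyC⟩ : ↥(Cᶜ : Set Y))) (hO.preimage continuous_subtype_val) hyO
  set R1 : Set Y := Subtype.val '' R with hR1
  set D1 : Set Y := Subtype.val '' D with hD1
  have hR1c : IsPreconnected R1 := hRc.image _ continuous_subtype_val.continuousOn
  have hD1c : IsPreconnected D1 := hDc.image _ continuous_subtype_val.continuousOn
  have hD1s : D1 ⊆ (closure R1)ᶜ := by
    rintro _ ⟨d, hd, rfl⟩ hcl
    obtain ⟨G, hG, hGD⟩ := isOpen_induced_iff.1 hD
    obtain ⟨w, hwG, r', hr', rfl⟩ := mem_closure_iff.1 hcl G hG (by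
      have : d ∈ Subtype.val ⁻¹' G := by rw [hGD]; exact hd
      exact this)
    have : r' ∈ D := by rw [← hGD]; exact hwG
    exact Set.disjoint_left.1 hRD hr' this
  have hoc : IsOpen (closure R1)ᶜ := isClosed_closure.isOpen_compl
  set Dt : Set Y := connectedComponentIn (closure R1)ᶜ d1.1 with hDt
  have hDto : IsOpen Dt := hoc.connectedComponentIn
  have hDts : Dt ⊆ (closure R1)ᶜ := connectedComponentIn_subset _ _
  have hD1t : D1 ⊆ Dt := hD1c.subset_connectedComponentIn ⟨d1, hd1D, rfl⟩ hD1s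
  obtain ⟨F, hF, hFE, hFc, hd1F, hd2F, hFD⟩ := shrink hE hEb
    (isPreconnected_connectedComponentIn (F := (closure R1)ᶜ) (x := d1.1)) hDto
    (hD1t ⟨d1, hd1D, rfl⟩) (hD1t ⟨d2, hd2D, rfl⟩)
  have hLo : IsOpen (⋃₀ F) := isOpen_sUnion fun e he => (hE e (hFE he)).1
  have hyR1 : y ∈ R1 := ⟨_, hyR, rfl⟩
  have hLm : ⋃₀ F ∈ Ls := ⟨F, ⟨hF, hFE⟩, rfl⟩
  refine hCLp (⋃₀ F) hLo hFc ⟨d1.1, hd1F, hd1N⟩ ⟨d2.1, hd2F, hd2O⟩
    (fun h => hDts (hFD h) (subset_closure hyR1)) R1 hR1c hyR1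
    (fun w hw h => hDts (hFD h) (subset_closure hw)) ?_ ⟨r.1, ⟨r, hrR, rfl⟩, hrN⟩
  rw [Set.disjoint_left]
  rintro _ ⟨w, _, rfl⟩ h
  exact w.2 (mem_biUnion hLm h)

theorem claimStepSet {X : Type*} [MetricSpace X] [SecondCountableTopology X] (hX : HLC X)
    {T : Set X} (hT : Thick T) {y : X} (hy : y ∈ T) {N : Set X} (hN : IsOpen N)
    (hNT : (N ∩ T).Nonempty) (hyN : y ∉ closure N) {O : Set X} (hO : IsOpen O) (hyO : y ∈ O) :
    ∃ G T' : Set X, IsOpen G ∧ IsPreconnected (G ∩ T) ∧ (G ∩ T ∩ N).Nonempty ∧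
      (G ∩ T ∩ O).Nonempty ∧ y ∉ closure (G ∩ T) ∧ T' ⊆ T ∧ Thick T' ∧ y ∈ T' ∧
      (N ∩ T').Nonempty ∧ Disjoint T' (closure (G ∩ T)) := by
  obtain ⟨n, hnN, hnT⟩ := hNT
  obtain ⟨L, S, hL, hLc, ⟨l1, hl1, hl1N⟩, ⟨l2, hl2, hl2O⟩, hyL, hS, hyS, ⟨s, hsS, hsN⟩, hSL⟩ :=
    claimStep (hX.subtype T) hT.univ_subtype (y := ⟨y, hy⟩)
      (hN.preimage continuous_subtype_val) ⟨⟨n, hnT⟩, hnN⟩
      (fun h => hyN (by
        rw [closure_subtype] at h
        exact closure_mono (image_preimage_subset _ _) h))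
      (hO.preimage continuous_subtype_val) hyO
  obtain ⟨G, hG, hGL⟩ := isOpen_induced_iff.1 hL
  have hLe : G ∩ T = Subtype.val '' L := by
    rw [← hGL, Subtype.image_preimage_coe, inter_comm]
  refine ⟨G, Subtype.val '' S, hG, ?_, ?_, ?_, ?_, ?_, hS.image_val, ⟨_, hyS, rfl⟩, ?_, ?_⟩
  · rw [hLe]; exact hLc.image _ continuous_subtype_val.continuousOn
  · rw [hLe]; exact ⟨l1.1, ⟨l1, hl1, rfl⟩, hl1N⟩
  · rw [hLe]; exact ⟨l2.1, ⟨l2, hl2, rfl⟩, hl2O⟩
  · rw [hLe]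
    intro h
    exact hyL (closure_subtype.2 h)
  · rintro _ ⟨w, _, rfl⟩; exact w.2
  · exact ⟨s.1, hsN, ⟨s, hsS, rfl⟩⟩
  · rw [hLe, Set.disjoint_left]
    rintro _ ⟨w, hw, rfl⟩ h
    exact Set.disjoint_left.1 hSL hw (closure_subtype.2 h)

theorem no_thick {X : Type*} [MetricSpace X] [SecondCountableTopology X] (hX : HLC X)
    (T0 : Set X) : ¬ Thick T0 := by
  classical
  intro hT0
  obtain ⟨y, hy, n, hn, hyn⟩ := hT0.1
  obtain ⟨U, hU, hnU, hUy⟩ : ∃ U : Set X, IsOpen U ∧ n ∈ U ∧ y ∉ closure U := by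
    obtain ⟨t, ht, htc, htU⟩ := exists_mem_nhds_isClosed_subset
      ((isOpen_compl_singleton (x := y)).mem_nhds (show n ∈ ({y}ᶜ : Set X) from fun h => hyn h.symm))
    exact ⟨interior t, isOpen_interior, mem_interior_iff_mem_nhds.2 ht,
      fun h => htU (closure_minimal interior_subset htc h) rfl⟩
  obtain ⟨V, hV, hVT, hVU, O1, hO1, hnO1, hOV⟩ := hX.use hT0.preconn hn hU hnU
  set N : Set X := O1 ∩ U with hN
  have hNo : IsOpen N := hO1.inter hU
  have hyN : y ∉ closure N := fun h => hUy (closure_mono inter_subset_right h)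
  have hNV : ∀ w ∈ N, w ∈ T0 → w ∈ V := fun w hw hw' => hOV ⟨hw.1, hw'⟩
  have step : ∀ (k : ℕ) (T : {T : Set X // Thick T ∧ T ⊆ T0 ∧ y ∈ T ∧ (N ∩ T).Nonempty}),
      ∃ (G : Set X) (T' : {T : Set X // Thick T ∧ T ⊆ T0 ∧ y ∈ T ∧ (N ∩ T).Nonempty}),
        IsOpen G ∧ IsPreconnected (G ∩ T.1) ∧ (G ∩ T.1 ∩ N).Nonempty ∧
        (G ∩ T.1 ∩ Metric.ball y (1 / ((k : ℝ) + 1))).Nonempty ∧ y ∉ closure (G ∩ T.1) ∧
        T'.1 ⊆ T.1 ∧ Disjoint T'.1 (closure (G ∩ T.1)) := by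
    rintro k ⟨T, hT, hTT, hyT, hNT⟩
    obtain ⟨G, T', h1, h2, h3, h4, h5, h6, h7, h8, h9, h10⟩ :=
      claimStepSet hX hT hyT hNo hNT hyN (Metric.isOpen_ball (x := y) (ε := 1 / ((k : ℝ) + 1)))
        (Metric.mem_ball_self (by positivity))
    exact ⟨G, ⟨T', h7, h6.trans hTT, h8, h9⟩, h1, h2, h3, h4, h5, h6, h10⟩
  choose Gf Tf hG1 hG2 hG3 hG4 hG5 hG6 hG7 using step
  let T : ℕ → {T : Set X // Thick T ∧ T ⊆ T0 ∧ y ∈ T ∧ (N ∩ T).Nonempty} :=
    fun k => Nat.rec ⟨T0, hT0, Subset.rfl, hy, ⟨n, ⟨hnO1, hnU⟩, hn⟩⟩ (fun k T => Tf k T) k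
  have hTs : ∀ k, T (k + 1) = Tf k (T k) := fun k => rfl
  set G : ℕ → Set X := fun k => Gf k (T k) with hGd
  set L : ℕ → Set X := fun k => G k ∩ (T k).1 with hLd
  have hGo : ∀ k, IsOpen (G k) := fun k => hG1 k (T k)
  have hLc : ∀ k, IsPreconnected (L k) := fun k => hG2 k (T k)
  have hLN : ∀ k, (L k ∩ N).Nonempty := fun k => hG3 k (T k)
  have hLb : ∀ k, (L k ∩ Metric.ball y (1 / ((k : ℝ) + 1))).Nonempty := fun k => hG4 k (T k)
  have hyL : ∀ k, y ∉ closure (L k) := fun k => hG5 k (T k)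
  have hTm : ∀ k, (T (k + 1)).1 ⊆ (T k).1 := fun k => by rw [hTs]; exact hG6 k (T k)
  have hTd : ∀ k, Disjoint (T (k + 1)).1 (closure (L k)) := fun k => by
    rw [hTs]; exact hG7 k (T k)
  have hTa : ∀ j k, j ≤ k → (T k).1 ⊆ (T j).1 := by
    intro j k hjk
    induction k, hjk using Nat.le_induction with
    | base => exact Subset.rfl
    | succ k _ ih => exact (hTm k).trans ih
  have ha : ∀ j k, j < k → ∀ w ∈ L k, w ∉ closure (L j) := fun j k hjk w hw h =>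
    Set.disjoint_left.1 (hTd j) (hTa (j + 1) k hjk hw.2) h
  have hb : ∀ j k, j < k → ∀ w ∈ L k, w ∉ G j := fun j k hjk w hw h =>
    ha j k hjk w hw (subset_closure ⟨h, hTa j k hjk.le hw.2⟩)
  have hLV : ∀ k, (L k ∩ V).Nonempty := by
    intro k
    obtain ⟨w, hw1, hw2⟩ := hLN k
    exact ⟨w, hw1, hNV w hw2 ((T k).2.2.1 hw1.2)⟩
  set S : Set X := insert y (V ∪ ⋃ k, L k) with hS
  have hpc : IsPreconnected (V ∪ ⋃ k, L k) := by
    refine preconn_union_of_meet hV ?_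
    intro p hp
    obtain ⟨k, hk⟩ := mem_iUnion.1 hp
    exact ⟨L k, hLc k, hk, (subset_iUnion L k).trans subset_union_right, hLV k⟩
  have hycl : y ∈ closure (⋃ k, L k) := by
    rw [Metric.mem_closure_iff]
    intro ε hε
    obtain ⟨k, hk⟩ := exists_nat_one_div_lt hε
    obtain ⟨w, hw1, hw2⟩ := hLb k
    refine ⟨w, mem_iUnion.2 ⟨k, hw1⟩, ?_⟩
    rw [Metric.mem_ball, dist_comm] at hw2
    exact hw2.trans hk
  have hSc : IsPreconnected S := by
    refine hpc.subset_closure (subset_insert _ _) ?_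
    intro z hz
    rcases hz with rfl | hz
    · exact closure_mono subset_union_right hycl
    · exact subset_closure hz
  obtain ⟨W, hW, hWS, hWU, O, hO, hyO, hOS⟩ :=
    hX.use hSc (mem_insert y _) (isClosed_closure (s := U)).isOpen_compl hUy
  obtain ⟨ε, hε, hεO⟩ := Metric.isOpen_iff.1 hO y hyO
  obtain ⟨k, hk⟩ := exists_nat_one_div_lt hε
  obtain ⟨w, hw1, hw2⟩ := hLb k
  have hwW : w ∈ W := by
    apply hOS
    refine ⟨hεO ?_, Or.inr (Or.inr (mem_iUnion.2 ⟨k, hw1⟩))⟩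
    exact Metric.ball_subset_ball hk.le hw2
  have hyW : y ∈ W := hOS ⟨hyO, mem_insert _ _⟩
  have hWV : ∀ v ∈ W, v ∉ V := fun v hv h => hWU hv (subset_closure (hVU h))
  set Q : Set X := G k \ ⋃ j ∈ Finset.range k, closure (L j) with hQ
  have hQo : IsOpen Q := by
    refine (hGo k).sdiff ?_
    exact (Finset.range k).finite_toSet.isClosed_biUnion (fun j _ => isClosed_closure)
  have hQm : ∀ v, v ∈ Q ↔ v ∈ G k ∧ ∀ j < k, v ∉ closure (L j) := by
    intro v; simp [hQ]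
  have hcl : ∀ j, j < k → ∀ v ∈ L j, v ∉ closure (L k) := by
    intro j hj v hv h
    obtain ⟨u, hu1, hu2⟩ := mem_closure_iff.1 h (G j) (hGo j) hv.1
    exact hb j k hj u hu2 hu1
  obtain ⟨v, hvW, hvQ, hvn⟩ := hW Q (closure (L k))ᶜ hQo isClosed_closure.isOpen_compl
    (by
      intro v hv
      by_cases hvc : v ∈ closure (L k)
      · left
        rcases hWS hv with rfl | h | h
        · exact absurd hvc (hyL k)
        · exact absurd h (hWV v hv)
        · obtain ⟨j, hj⟩ := mem_iUnion.1 h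
          rcases lt_trichotomy j k with hjk | rfl | hjk
          · exact absurd hvc (hcl j hjk v hj)
          · exact (hQm v).2 ⟨hj.1, fun i hi => ha i j hi v hj⟩
          · exact absurd hvc (ha k j hjk v hj)
      · exact Or.inr hvc)
    ⟨w, hwW, (hQm w).2 ⟨hw1.1, fun i hi => ha i k hi w hw1⟩⟩ ⟨y, hyW, hyL k⟩
  rw [hQm] at hvQ
  rcases hWS hvW with rfl | h | h
  · exact hvn (subset_closure ⟨hvQ.1, (T k).2.2.2.1⟩)
  · exact hWV v hvW h
  · obtain ⟨j, hj⟩ := mem_iUnion.1 h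
    rcases lt_trichotomy j k with hjk | rfl | hjk
    · exact hvQ.2 j hjk (subset_closure hj)
    · exact hvn (subset_closure hj)
    · exact hb k j hjk v hj hvQ.1

/-- In a locally connected HLC separable metric space any two points are separated by an open set
with countable boundary. -/
theorem all_CS {X : Type*} [MetricSpace X] [SecondCountableTopology X]
    [LocallyConnectedSpace X] (hX : HLC X) {x y : X} (hxy : x ≠ y) : CS x y := by
  by_contra h
  obtain ⟨T, hT, _⟩ := exists_thick hX hxy h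
  exact no_thick hX T hT

end Pool.Agent.U954.HLC
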