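import Mathlib
import Pool.Agent.U954.HLC.NoThick

set_option autoImplicit false

/-!
A countable set whose complement has a clopen-separated closed basis.
-/

namespace Pool.Agent.U954.HLC

open Set Topology TopologicalSpace

theorem glue1 {X : Type*} [TopologicalSpace X] [LocallyConnectedSpace X] (hX : HLC X)
    {O : ℕ → Set X} (hO : ∀ i, IsOpen (O i)) {B : Set X} (hB : IsClosed B)
    (hBc : IsPreconnected B) (hcov : B ⊆ ⋃ i, O i) :
    frontier (glue O B) ⊆ ⋃ i, frontier (O i) ∧ B \ glue O B ⊆ ⋃ i, frontier (O i) := by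
  have h2 : B \ glue O B ⊆ ⋃ i, frontier (O i) := by
    rintro p ⟨hp, hpn⟩
    rcases cover_glue hO (subset_closure hp) (hcov hp) with h | h
    · exact absurd h hpn
    · exact h
  refine ⟨?_, h2⟩
  intro p hp
  rw [(isOpen_glue hO B).frontier_eq] at hp
  rcases frontier_glue hX hO hBc hp.1 hp.2 with h | h
  · rw [hB.closure_eq] at h
    exact h2 ⟨h, hp.2⟩
  · exact h

theorem sepAB {X : Type*} [MetricSpace X] [SecondCountableTopology X]
    [LocallyConnectedSpace X] (hX : HLC X) {A B : Set X} (hA : IsClosed A)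
    (hAc : IsPreconnected A) (hB : IsClosed B) (hBc : IsPreconnected B) (hd : Disjoint A B) :
    ∃ Q : Set X, IsOpen Q ∧ (frontier Q).Countable ∧ (A \ Q).Countable ∧
      (B ∩ closure Q).Countable := by
  have step1 : ∀ a ∈ A, ∃ P : Set X, IsOpen P ∧ (frontier P).Countable ∧ (B \ P).Countable ∧
      a ∉ closure P := by
    intro a ha
    obtain ⟨O, hO, hPO, hcov⟩ := lindelof_seq (F := B)
      (P := fun O => a ∉ closure O ∧ (frontier O).Countable)
      (fun b hb => by
        have hba : b ≠ a := by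
          rintro rfl; exact Set.disjoint_left.1 hd ha hb
        obtain ⟨O, h1, h2, h3, h4⟩ := all_CS hX hba
        exact ⟨O, h1, h2, h3, h4⟩) (by simp)
    have hcf : (⋃ i, frontier (O i)).Countable := countable_iUnion fun i => (hPO i).2
    obtain ⟨g1, g2⟩ := glue1 hX hO hB hBc hcov
    refine ⟨glue O B, isOpen_glue hO B, hcf.mono g1, hcf.mono g2, ?_⟩
    intro h
    rcases closure_glue hX hO hBc h with h | h
    · rw [hB.closure_eq] at h
      exact Set.disjoint_left.1 hd ha h
    · obtain ⟨i, hi⟩ := mem_iUnion.1 h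
      exact (hPO i).1 hi
  obtain ⟨O, hO, hPO, hcov⟩ := lindelof_seq (F := A)
    (P := fun O => (frontier O).Countable ∧ (B ∩ closure O).Countable)
    (fun a ha => by
      obtain ⟨P, h1, h2, h3, h4⟩ := step1 a ha
      refine ⟨(closure P)ᶜ, isClosed_closure.isOpen_compl, h4, ?_, ?_⟩
      · rw [frontier_compl]; exact h2.mono frontier_closure_subset
      · refine h3.mono ?_
        rintro b ⟨hb, hbc⟩
        refine ⟨hb, fun hbP => ?_⟩
        rw [closure_compl] at hbc
        exact hbc (interior_maximal subset_closure h1 hbP)) (by simp)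
  have hcf : (⋃ i, frontier (O i)).Countable := countable_iUnion fun i => (hPO i).1
  obtain ⟨g1, g2⟩ := glue1 hX hO hA hAc hcov
  refine ⟨glue O A, isOpen_glue hO A, hcf.mono g1, hcf.mono g2, ?_⟩
  have h5 : (⋃ i, B ∩ closure (O i)).Countable := countable_iUnion fun i => (hPO i).2
  refine h5.mono ?_
  rintro b ⟨hb, hbc⟩
  rcases closure_glue hX hO hAc hbc with h | h
  · rw [hA.closure_eq] at h
    exact absurd hb (Set.disjoint_left.1 hd h)
  · obtain ⟨i, hi⟩ := mem_iUnion.1 h
    exact mem_iUnion.2 ⟨i, hb, hi⟩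

/-- The generic balls. -/
noncomputable def Uf {X : Type*} [MetricSpace X] (t : ℝ) (i : X × ℚ) : Set X :=
  connectedComponentIn (Metric.ball i.1 ((i.2 : ℝ) * t)) i.1

theorem closure_Uf {X : Type*} [MetricSpace X] {t t' : ℝ} (ht : 0 < t) (htt : t < t')
    {i : X × ℚ} (hi : 0 < i.2) : closure (Uf t i) ⊆ Uf t' i := by
  have hq : (0 : ℝ) < (i.2 : ℝ) := by exact_mod_cast hi
  have h0 : i.1 ∈ Uf t i := mem_connectedComponentIn (Metric.mem_ball_self (mul_pos hq ht))
  refine (IsPreconnected.closure isPreconnected_connectedComponentIn).subset_connectedComponentIn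
    (subset_closure h0) ?_
  have h1 : closure (Uf t i) ⊆ Metric.closedBall i.1 ((i.2 : ℝ) * t) :=
    closure_minimal ((connectedComponentIn_subset _ _).trans Metric.ball_subset_closedBall)
      Metric.isClosed_closedBall
  refine h1.trans (Metric.closedBall_subset_ball ?_)
  exact mul_lt_mul_of_pos_left htt hq

theorem good_base {X : Type*} [MetricSpace X] [SecondCountableTopology X]
    [LocallyConnectedSpace X] :
    ∃ E : Set (Set X), E.Countable ∧ (∀ U ∈ E, IsOpen U ∧ IsPreconnected U) ∧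
      (∀ (x : X) (V : Set X), IsOpen V → x ∈ V → ∃ U ∈ E, x ∈ U ∧ closure U ⊆ V) ∧
      (∀ U ∈ E, ∀ V ∈ E, Disjoint U V → Disjoint (closure U) (closure V)) := by
  obtain ⟨D, hD, hDd⟩ := exists_countable_dense X
  set I : Set (X × ℚ) := D ×ˢ {q | 0 < q} with hI
  have hIc : I.Countable := hD.prod (Set.to_countable _)
  set bad : (X × ℚ) × (X × ℚ) → Set ℝ := fun p => {t | 0 < t ∧ Disjoint (Uf t p.1) (Uf t p.2) ∧
    ¬ Disjoint (closure (Uf t p.1)) (closure (Uf t p.2))} with hbad
  have hbs : ∀ p ∈ I ×ˢ I, (bad p).Countable := by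
    rintro ⟨i, j⟩ ⟨hi, hj⟩
    have key : ∀ t t' : ℝ, t ∈ bad (i, j) → t' ∈ bad (i, j) → ¬ t < t' := by
      rintro t t' ⟨ht0, ht1, ht2⟩ ⟨ht0', ht1', ht2'⟩ htt
      apply ht2
      exact ht1'.mono (closure_Uf ht0 htt hi.2) (closure_Uf ht0 htt hj.2)
    have : (bad (i, j)).Subsingleton := by
      intro t ht t' ht'
      rcases lt_trichotomy t t' with h | h | h
      · exact absurd h (key t t' ht ht')
      · exact h
      · exact absurd h (key t' t ht' ht)
    exact this.countable
  have hbc : (⋃ p ∈ I ×ˢ I, bad p).Countable := (hIc.prod hIc).biUnion hbs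
  obtain ⟨t, ⟨ht1, ht2⟩, htb⟩ := (hbc.dense_compl ℝ).inter_open_nonempty (Ioo (1 : ℝ) 2) isOpen_Ioo
    ⟨3 / 2, by norm_num, by norm_num⟩
  have ht0 : 0 < t := by linarith
  refine ⟨Uf t '' I, hIc.image _, ?_, ?_, ?_⟩
  · rintro _ ⟨i, _, rfl⟩
    exact ⟨Metric.isOpen_ball.connectedComponentIn, isPreconnected_connectedComponentIn⟩
  · intro x V hV hx
    obtain ⟨ε, hε, hεV⟩ := Metric.isOpen_iff.1 hV x hx
    obtain ⟨q, hq1, hq2⟩ := exists_rat_btwn (show ε / 4 / t < ε / 2 / t by
      apply div_lt_div_of_pos_right _ ht0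
      linarith)
    rw [div_lt_iff₀ ht0] at hq1
    rw [lt_div_iff₀ ht0] at hq2
    have hqt : 0 < (q : ℝ) * t := by linarith
    have hq0 : (0 : ℝ) < q := by
      by_contra h
      rw [not_lt] at h
      have := mul_nonpos_of_nonpos_of_nonneg h ht0.le
      linarith
    set W : Set X := connectedComponentIn (Metric.ball x (ε / 8)) x with hW
    have hWo : IsOpen W := Metric.isOpen_ball.connectedComponentIn
    have hxW : x ∈ W := mem_connectedComponentIn (Metric.mem_ball_self (by linarith))
    obtain ⟨d, hdW, hdD⟩ := hDd.inter_open_nonempty W hWo ⟨x, hxW⟩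
    have hWs : W ⊆ Metric.ball x (ε / 8) := connectedComponentIn_subset _ _
    have hdx : dist d x < ε / 8 := hWs hdW
    have hWU : W ⊆ Uf t (d, q) := by
      refine IsPreconnected.subset_connectedComponentIn isPreconnected_connectedComponentIn hdW ?_
      intro w hw
      have hwx : dist w x < ε / 8 := hWs hw
      rw [Metric.mem_ball]
      have h1 := dist_triangle w x d
      rw [dist_comm x d] at h1
      have h2 : dist w (d, q).1 = dist w d := rfl
      have h3 : ((d, q).2 : ℝ) = (q : ℝ) := rfl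
      rw [h2, h3]
      linarith
    refine ⟨Uf t (d, q), ⟨(d, q), ⟨hdD, ?_⟩, rfl⟩, hWU hxW, ?_⟩
    · show (0 : ℚ) < q
      exact_mod_cast hq0
    · have h1 : closure (Uf t (d, q)) ⊆ Metric.closedBall d ((q : ℝ) * t) :=
        closure_minimal ((connectedComponentIn_subset _ _).trans Metric.ball_subset_closedBall)
          Metric.isClosed_closedBall
      refine (h1.trans ?_).trans hεV
      intro z hz
      rw [Metric.mem_closedBall] at hz
      rw [Metric.mem_ball]
      have h2 := dist_triangle z d x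
      linarith
  · rintro _ ⟨i, hi, rfl⟩ _ ⟨j, hj, rfl⟩ hdis
    by_contra hcon
    exact htb (mem_biUnion (show (i, j) ∈ I ×ˢ I from ⟨hi, hj⟩) ⟨ht0, hdis, hcon⟩)

/-- Every nonempty open set contains an isolated point or a point outside a countable set. -/
theorem open_not_sub {X : Type*} [MetricSpace X] [LocallyConnectedSpace X] {C : Set X}
    (hC : C.Countable) {G : Set X} (hG : IsOpen G) (hn : G.Nonempty) :
    ∃ p ∈ G, p ∉ {p | p ∈ C ∧ ¬ IsOpen ({p} : Set X)} := by
  by_contra hcon
  push Not at hcon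
  obtain ⟨p, hp⟩ := hn
  have hK : IsOpen (connectedComponentIn G p) := hG.connectedComponentIn
  have hKs : connectedComponentIn G p ⊆ G := connectedComponentIn_subset _ _
  have hKc : (connectedComponentIn G p).Countable := hC.mono (fun z hz => (hcon z (hKs hz)).1)
  have hsub : (connectedComponentIn G p).Subsingleton :=
    hKc.isTotallyDisconnected _ Subset.rfl isPreconnected_connectedComponentIn
  have hKp : connectedComponentIn G p = {p} :=
    hsub.eq_singleton_of_mem (mem_connectedComponentIn hp)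
  exact (hcon p hp).2 (hKp ▸ hK)

/-- The countable set and the clopen-separated closed basis of its complement. -/
theorem exists_R2 {X : Type*} [MetricSpace X] [SecondCountableTopology X]
    [LocallyConnectedSpace X] (hX : HLC X) :
    ∃ C : Set X, C.Countable ∧
    (∃ B : Set (Set ↥(Cᶜ : Set X)), (∀ U ∈ B, IsClosed U) ∧
      (∀ p : ↥(Cᶜ : Set X), ∀ V ∈ nhds p, ∃ U ∈ B, U ⊆ V ∧ p ∈ interior U) ∧
      (∀ U ∈ B, ∀ W ∈ B, Disjoint U W →
        ∃ F : Set ↥(Cᶜ : Set X), IsClopen F ∧ U ⊆ F ∧ Disjoint F W)) := by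
  classical
  obtain ⟨E, hEc, hE, hEb, hEd⟩ := good_base (X := X)
  have hch : ∀ p : Set X × Set X, ∃ Q : Set X, p.1 ∈ E → p.2 ∈ E →
      Disjoint p.1 p.2 → (IsOpen Q ∧ (frontier Q).Countable ∧ (closure p.1 \ Q).Countable ∧
      (closure p.2 ∩ closure Q).Countable) := by
    rintro ⟨U, V⟩
    by_cases h : U ∈ E ∧ V ∈ E ∧ Disjoint U V
    · obtain ⟨Q, hQ⟩ := sepAB hX (A := closure U) (B := closure V) isClosed_closure
        (hE U h.1).2.closure isClosed_closure (hE V h.2.1).2.closure (hEd U h.1 V h.2.1 h.2.2)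
      exact ⟨Q, fun _ _ _ => hQ⟩
    · exact ⟨∅, fun h1 h2 h3 => absurd ⟨h1, h2, h3⟩ h⟩
  choose Q hQ using hch
  set J : Set (Set X × Set X) := {p | p ∈ E ×ˢ E ∧ Disjoint p.1 p.2} with hJ
  have hJc : J.Countable := (hEc.prod hEc).mono (fun p hp => hp.1)
  set C0 : Set X := ⋃ p ∈ J, (frontier (Q p) ∪ ((closure p.1 \ Q p) ∪
    (closure p.2 ∩ closure (Q p)))) with hC0
  have hC0c : C0.Countable := hJc.biUnion (fun p hp => by
    obtain ⟨_, h2, h3, h4⟩ := hQ p hp.1.1 hp.1.2 hp.2
    exact h2.union (h3.union h4))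
  set C : Set X := {p | p ∈ C0 ∧ ¬ IsOpen ({p} : Set X)} with hC
  refine ⟨C, hC0c.mono (fun p hp => hp.1),
    {U' | ∃ U ∈ E, U' = Subtype.val ⁻¹' (closure U)}, ?_, ?_, ?_⟩
  · rintro _ ⟨U, _, rfl⟩
    exact isClosed_closure.preimage continuous_subtype_val
  · intro p V hV
    rw [mem_nhds_iff] at hV
    obtain ⟨W, hWV, hWo, hpW⟩ := hV
    obtain ⟨G, hG, rfl⟩ := isOpen_induced_iff.1 hWo
    obtain ⟨U, hU, hpU, hUG⟩ := hEb p.1 G hG hpW
    refine ⟨_, ⟨U, hU, rfl⟩, (preimage_mono hUG).trans hWV, ?_⟩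
    exact interior_maximal (preimage_mono subset_closure)
      ((hE U hU).1.preimage continuous_subtype_val) hpU
  · rintro _ ⟨U, hU, rfl⟩ _ ⟨V, hV, rfl⟩ hdis
    have hUV : Disjoint U V := by
      rw [Set.disjoint_iff_inter_eq_empty]
      by_contra hne
      obtain ⟨p, ⟨hpU, hpV⟩, hpC⟩ := open_not_sub hC0c ((hE U hU).1.inter (hE V hV).1)
        (nonempty_iff_ne_empty.2 hne)
      exact Set.disjoint_left.1 hdis (show (⟨p, hpC⟩ : ↥(Cᶜ : Set X)) ∈ _ from
        subset_closure hpU) (subset_closure hpV)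
    obtain ⟨hQo, -, -, -⟩ := hQ (U, V) hU hV hUV
    have hcl : Disjoint (closure U) (closure V) := hEd U hU V hV hUV
    have hJm : (U, V) ∈ J := ⟨⟨hU, hV⟩, hUV⟩
    have hm : ∀ p : X, p ∈ frontier (Q (U, V)) ∪ ((closure U \ Q (U, V)) ∪
        (closure V ∩ closure (Q (U, V)))) → p ∈ C0 := fun p hp => mem_biUnion hJm hp
    refine ⟨Subtype.val ⁻¹' ((Q (U, V) ∪ closure U) \ closure V), ⟨?_, ?_⟩, ?_, ?_⟩
    · rw [← isOpen_compl_iff, isOpen_iff_mem_nhds]
      intro p hp
      by_cases hiso : IsOpen ({p.1} : Set X)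
      · refine Filter.mem_of_superset
          ((hiso.preimage continuous_subtype_val).mem_nhds (mem_singleton p.1)) ?_
        intro z hz
        have : z = p := Subtype.ext hz
        rw [this]; exact hp
      · have hpC0 : p.1 ∉ C0 := fun h => p.2 ⟨h, hiso⟩
        have h1 : p.1 ∉ closure (Q (U, V)) ∪ closure U := by
          rintro (h | h)
          · by_cases hpV : p.1 ∈ closure V
            · exact hpC0 (hm _ (Or.inr (Or.inr ⟨hpV, h⟩)))
            · apply hpC0
              apply hm
              left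
              rw [hQo.frontier_eq]
              exact ⟨h, fun hq => hp ⟨Or.inl hq, hpV⟩⟩
          · exact hp ⟨Or.inr h, fun hpV => Set.disjoint_left.1 hcl h hpV⟩
        refine Filter.mem_of_superset (((isClosed_closure.union
          isClosed_closure).isOpen_compl.preimage continuous_subtype_val).mem_nhds h1) ?_
        intro z hz hz'
        rcases hz'.1 with h | h
        · exact hz (Or.inl (subset_closure h))
        · exact hz (Or.inr h)
    · rw [isOpen_iff_mem_nhds]
      intro p hp
      by_cases hiso : IsOpen ({p.1} : Set X)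
      · refine Filter.mem_of_superset
          ((hiso.preimage continuous_subtype_val).mem_nhds (mem_singleton p.1)) ?_
        intro z hz
        have : z = p := Subtype.ext hz
        rw [this]; exact hp
      · have hpC0 : p.1 ∉ C0 := fun h => p.2 ⟨h, hiso⟩
        have h1 : p.1 ∈ Q (U, V) := by
          rcases hp.1 with h | h
          · exact h
          · by_contra hn
            exact hpC0 (hm _ (Or.inr (Or.inl ⟨h, hn⟩)))
        refine Filter.mem_of_superset (((hQo.sdiff
          isClosed_closure).preimage continuous_subtype_val).mem_nhds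
          (show p.1 ∈ Q (U, V) \ closure V from ⟨h1, hp.2⟩)) ?_
        intro z hz
        exact ⟨Or.inl hz.1, hz.2⟩
    · intro p hp
      exact ⟨Or.inr hp, fun h => Set.disjoint_left.1 hcl hp h⟩
    · rw [Set.disjoint_left]
      intro p hp h
      exact hp.2 h

end Pool.Agent.U954.HLC
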